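import Mathlib

/-!
# The gcd recursion for prime triples, beyond powers of the logarithm: the choice of the parameters
-/

set_option autoImplicit false

namespace Pool.Agent.K9h6.GR

open Filter Topology

lemma exp_sq_bound {u : ℝ} (hu : 1600 ≤ u) : 6 / 100 * u ^ 2 ≤ Real.exp (u / 2) := by
  have h1 : u / 6 ≤ Real.exp (u / 6) := by
    have := Real.add_one_le_exp (u / 6)
    linarith
  have h2 : Real.exp (u / 2) = Real.exp (u / 6) ^ 3 := by
    rw [← Real.exp_nat_mul]
    congr 1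
    push_cast
    ring
  rw [h2]
  have h3 : (u / 6) ^ 3 ≤ Real.exp (u / 6) ^ 3 := pow_le_pow_left₀ (by linarith) h1 3
  have h4 : 6 / 100 * u ^ 2 ≤ (u / 6) ^ 3 := by nlinarith [sq_nonneg u]
  linarith

theorem asy : ∃ N₀ : ℕ, ∀ N : ℕ, N₀ ≤ N → ∀ K D : ℕ,
    (K : ℝ) ^ 2 * D ≤ Real.exp (1 / 1600 * Real.log (Real.log N) ^ 2) →
    ∃ L R J : ℕ, 16 * K ^ 2 * D ≤ L ∧ 2 ≤ R ∧ R ≤ L ∧ J ≤ L ∧
      1 + Real.log (Nat.sqrt N) ≤ L ∧ L < (R + 1) ^ J ∧
      L ^ ((18 + 3 * R + 2 * R ^ 2) * 8 ^ J * (R + 1)) ≤ Nat.sqrt N ∧ 1600 ≤ Real.log (Real.log N) := by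
  have htend : Tendsto (fun N : ℕ => Real.log (Real.log N)) atTop atTop :=
    Real.tendsto_log_atTop.comp (Real.tendsto_log_atTop.comp tendsto_natCast_atTop_atTop)
  obtain ⟨N₀, hN₀⟩ := (htend.eventually_ge_atTop 1600).exists_forall_of_atTop
  refine ⟨N₀ + 3, ?_⟩
  intro N hN K D hKD
  have hu := hN₀ N (by omega)
  obtain ⟨u, hud⟩ : ∃ u, u = Real.log (Real.log N) := ⟨_, rfl⟩
  rw [← hud] at hu hKD ⊢
  have hN3 : (3 : ℝ) ≤ N := by exact_mod_cast (show 3 ≤ N by omega)
  have hlN : 0 < Real.log N := Real.log_pos (by linarith)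
  have hexpu : Real.exp u = Real.log N := by rw [hud, Real.exp_log hlN]
  have hu0 : 0 < u := by linarith
  obtain ⟨R, hR⟩ : ∃ R, R = ⌊Real.exp (u / 20)⌋₊ := ⟨_, rfl⟩
  obtain ⟨J, hJ⟩ : ∃ J, J = ⌊u / 20⌋₊ := ⟨_, rfl⟩
  obtain ⟨L, hL⟩ : ∃ L, L = ⌊Real.exp (u ^ 2 / 800)⌋₊ := ⟨_, rfl⟩
  have hR1 : (R : ℝ) ≤ Real.exp (u / 20) := by rw [hR]; exact Nat.floor_le (Real.exp_pos _).le
  have hR2 : Real.exp (u / 20) < R + 1 := by rw [hR]; exact Nat.lt_floor_add_one _
  have hJ1 : (J : ℝ) ≤ u / 20 := by rw [hJ]; exact Nat.floor_le (by positivity)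
  have hJ2 : u / 20 < J + 1 := by rw [hJ]; exact Nat.lt_floor_add_one _
  have hL1 : (L : ℝ) ≤ Real.exp (u ^ 2 / 800) := by rw [hL]; exact Nat.floor_le (Real.exp_pos _).le
  have hL2 : Real.exp (u ^ 2 / 800) < L + 1 := by rw [hL]; exact Nat.lt_floor_add_one _
  have hRtwo : 2 ≤ R := by
    rw [hR]
    apply Nat.le_floor
    have := Real.add_one_le_exp (u / 20)
    push_cast
    linarith
  have e20 : Real.exp (u / 20) ≤ Real.exp (u ^ 2 / 800) := by
    apply Real.exp_le_exp.2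
    nlinarith
  refine ⟨L, R, J, ?_, hRtwo, ?_, ?_, ?_, ?_, ?_, hu⟩
  · rw [hL]
    apply Nat.le_floor
    push_cast
    have h1 : (16 : ℝ) ≤ Real.exp (u ^ 2 / 1600) := by
      have := Real.add_one_le_exp (u ^ 2 / 1600)
      nlinarith
    calc (16 : ℝ) * K ^ 2 * D = 16 * (K ^ 2 * D) := by ring
      _ ≤ Real.exp (u ^ 2 / 1600) * Real.exp (1 / 1600 * u ^ 2) := by gcongr
      _ = Real.exp (u ^ 2 / 800) := by
        rw [← Real.exp_add]
        congr 1
        ring
  · rw [hR, hL]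
    exact Nat.floor_le_floor e20
  · rw [hJ, hL]
    apply Nat.floor_le_floor
    have := Real.add_one_le_exp (u / 20)
    linarith
  · have h1 : Real.log (Nat.sqrt N) ≤ Real.exp u := by
      rw [hexpu]
      apply Real.log_le_log
      · have : 0 < Nat.sqrt N := Nat.sqrt_pos.mpr (by omega)
        exact_mod_cast this
      · exact_mod_cast Nat.sqrt_le_self N
    have h2 : Real.exp (2 * u) ≤ Real.exp (u ^ 2 / 800) := by
      apply Real.exp_le_exp.2
      nlinarith
    have h3 : Real.exp (2 * u) = Real.exp u ^ 2 := by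
      rw [← Real.exp_nat_mul]
      norm_num
    have h4 : 2 ≤ Real.exp u := by
      have := Real.add_one_le_exp u
      linarith
    nlinarith
  · have h1 : (L : ℝ) < ((R : ℝ) + 1) ^ J := by
      calc (L : ℝ) ≤ Real.exp (u ^ 2 / 800) := hL1
        _ < Real.exp (J * (u / 20)) := by
          apply Real.exp_lt_exp.2
          nlinarith
        _ = Real.exp (u / 20) ^ J := by rw [Real.exp_nat_mul]
        _ ≤ ((R : ℝ) + 1) ^ J := by gcongr
    exact_mod_cast h1
  · obtain ⟨E, hE⟩ : ∃ E, E = (18 + 3 * R + 2 * R ^ 2) * 8 ^ J * (R + 1) := ⟨_, rfl⟩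
    rw [← hE]
    -- bound for the exponent
    have h8J : (8 : ℝ) ^ J ≤ Real.exp (u / 8) := by
      have hl8 : Real.log 8 ≤ 5 / 2 := by
        have : Real.log 8 = 3 * Real.log 2 := by
          rw [show (8 : ℝ) = 2 ^ 3 by norm_num, Real.log_pow]
          norm_num
        rw [this]
        have := Real.log_two_lt_d9
        linarith
      calc (8 : ℝ) ^ J = Real.exp (Real.log 8 * J) := by
            rw [mul_comm, Real.exp_nat_mul, Real.exp_log (by norm_num)]
        _ ≤ Real.exp (u / 8) := by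
            apply Real.exp_le_exp.2
            have hJ0 : (0 : ℝ) ≤ J := Nat.cast_nonneg _
            nlinarith
    have hER : (E : ℝ) ≤ 12 * Real.exp (u / 2) := by
      have hR2' : (2 : ℝ) ≤ R := by exact_mod_cast hRtwo
      have g1 : (18 : ℝ) + 3 * R + 2 * R ^ 2 ≤ 8 * R ^ 2 := by nlinarith
      have g2 : (R : ℝ) + 1 ≤ 3 / 2 * R := by linarith
      have g3 : (R : ℝ) ^ 3 ≤ Real.exp (u / 20) ^ 3 := by gcongr
      have g4 : Real.exp (u / 20) ^ 3 = Real.exp (3 * u / 20) := by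
        rw [← Real.exp_nat_mul]
        congr 1
        push_cast
        ring
      rw [hE]
      push_cast
      calc (18 + 3 * (R : ℝ) + 2 * (R : ℝ) ^ 2) * 8 ^ J * (R + 1)
          ≤ (8 * (R : ℝ) ^ 2) * Real.exp (u / 8) * (3 / 2 * R) := by gcongr
        _ = 12 * ((R : ℝ) ^ 3 * Real.exp (u / 8)) := by ring
        _ ≤ 12 * (Real.exp (3 * u / 20) * Real.exp (u / 8)) := by
          rw [← g4]
          gcongr
        _ = 12 * Real.exp (3 * u / 20 + u / 8) := by rw [Real.exp_add]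
        _ ≤ 12 * Real.exp (u / 2) := by
          gcongr
          linarith
    have hsN : Real.exp (Real.exp u / 2) ≤ 2 * (Nat.sqrt N : ℝ) := by
      have h1 : Real.sqrt N = Real.exp (Real.exp u / 2) := by
        rw [hexpu, Real.exp_half, Real.exp_log (by linarith)]
      have h2 : Real.sqrt N ≤ Nat.sqrt N + 1 := Real.real_sqrt_le_nat_sqrt_succ
      have h3 : (1 : ℝ) ≤ Nat.sqrt N := by
        have : 0 < Nat.sqrt N := Nat.sqrt_pos.mpr (by omega)
        exact_mod_cast this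
      rw [← h1]
      linarith
    have hmain : (L : ℝ) ^ E ≤ Nat.sqrt N := by
      have h1 : (L : ℝ) ^ E ≤ Real.exp (E * (u ^ 2 / 800)) := by
        rw [Real.exp_nat_mul]
        gcongr
      have h2 : (E : ℝ) * (u ^ 2 / 800) + 1 ≤ Real.exp u / 2 := by
        have k1 := exp_sq_bound hu
        have k2 : Real.exp u = Real.exp (u / 2) * Real.exp (u / 2) := by
          rw [← Real.exp_add]
          congr 1
          ring
        have k3 : (E : ℝ) * (u ^ 2 / 800) ≤ 12 * Real.exp (u / 2) * (u ^ 2 / 800) := by gcongr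
        have k4 : 12 * Real.exp (u / 2) * (u ^ 2 / 800) =
            1 / 4 * (Real.exp (u / 2) * (6 / 100 * u ^ 2)) := by ring
        have k5 : Real.exp (u / 2) * (6 / 100 * u ^ 2) ≤ Real.exp (u / 2) * Real.exp (u / 2) := by
          gcongr
        have k6 : 4 ≤ Real.exp u := by
          have := Real.add_one_le_exp u
          linarith
        rw [← k2] at k5
        linarith
      have h3 : Real.exp (E * (u ^ 2 / 800)) * 2 ≤ Real.exp (Real.exp u / 2) := by
        have k1 : (2 : ℝ) ≤ Real.exp 1 := by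
          have := Real.add_one_le_exp (1 : ℝ)
          linarith
        calc Real.exp (E * (u ^ 2 / 800)) * 2 ≤ Real.exp (E * (u ^ 2 / 800)) * Real.exp 1 := by gcongr
          _ = Real.exp (E * (u ^ 2 / 800) + 1) := by rw [Real.exp_add]
          _ ≤ Real.exp (Real.exp u / 2) := Real.exp_le_exp.2 h2
      linarith
    exact_mod_cast hmain

end Pool.Agent.K9h6.GR
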