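import Mathlib

/-!
# The gcd recursion for prime triples, beyond powers of the logarithm: combinatorial lemmas
-/

set_option autoImplicit false

namespace Pool.Agent.K9h6.GR

open Finset

lemma gcd_prod_dvd {ι : Type*} [DecidableEq ι] (F : Finset ι) (a : ℕ) (q : ι → ℕ) :
    Nat.gcd a (∏ j ∈ F, q j) ∣ ∏ j ∈ F, Nat.gcd a (q j) := by
  induction F using Finset.induction_on with
  | empty => simp
  | insert b F hb ih =>
    rw [prod_insert hb, prod_insert hb]
    exact (Nat.gcd_mul_right_dvd_mul_gcd a (q b) (∏ j ∈ F, q j)).trans (Nat.mul_dvd_mul_left _ ih)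

/-- the product is at most the least common multiple times a power of the bound for the gcds -/
lemma prod_le_lcm {ι : Type*} [DecidableEq ι] (F : Finset ι) (q : ι → ℕ) (H : ℕ) (hH : 1 ≤ H)
    (hq : ∀ i ∈ F, 1 ≤ q i)
    (hg : ∀ i ∈ F, ∀ j ∈ F, i ≠ j → Nat.gcd (q i) (q j) ≤ H) :
    ∏ i ∈ F, q i ≤ F.lcm q * H ^ (F.card ^ 2) := by
  induction F using Finset.induction_on with
  | empty => simp
  | insert a F ha ih =>
    have ih' := ih (fun i hi => hq i (mem_insert_of_mem hi))
      (fun i hi j hj => hg i (mem_insert_of_mem hi) j (mem_insert_of_mem hj))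
    rw [prod_insert ha, lcm_insert, card_insert_of_notMem ha]
    have hqa := hq a (mem_insert_self a F)
    have h1 : F.lcm q ∣ ∏ j ∈ F, q j := Finset.lcm_dvd fun b hb => dvd_prod_of_mem q hb
    have h2 : Nat.gcd (q a) (F.lcm q) ∣ ∏ j ∈ F, Nat.gcd (q a) (q j) :=
      (Nat.gcd_dvd_gcd_of_dvd_right _ h1).trans (gcd_prod_dvd F (q a) q)
    have h3 : ∏ j ∈ F, Nat.gcd (q a) (q j) ≤ H ^ F.card := by
      apply prod_le_pow_card
      intro j hj
      refine hg a (mem_insert_self a F) j (mem_insert_of_mem hj) ?_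
      rintro rfl
      exact ha hj
    have h4 : Nat.gcd (q a) (F.lcm q) ≤ H ^ F.card := by
      refine (Nat.le_of_dvd ?_ h2).trans h3
      exact prod_pos fun j _ => Nat.gcd_pos_of_pos_left _ hqa
    have h5 : Nat.gcd (q a) (F.lcm q) * Nat.lcm (q a) (F.lcm q) = q a * F.lcm q :=
      Nat.gcd_mul_lcm _ _
    have e0 : GCDMonoid.lcm (q a) (F.lcm q) = Nat.lcm (q a) (F.lcm q) := rfl
    rw [e0]
    calc q a * ∏ i ∈ F, q i ≤ q a * (F.lcm q * H ^ (F.card ^ 2)) := Nat.mul_le_mul_left _ ih'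
      _ = (q a * F.lcm q) * H ^ (F.card ^ 2) := by ring
      _ = (Nat.gcd (q a) (F.lcm q) * Nat.lcm (q a) (F.lcm q)) * H ^ (F.card ^ 2) := by rw [h5]
      _ ≤ (H ^ F.card * Nat.lcm (q a) (F.lcm q)) * H ^ (F.card ^ 2) := by gcongr
      _ = Nat.lcm (q a) (F.lcm q) * H ^ (F.card + F.card ^ 2) := by rw [pow_add]; ring
      _ ≤ Nat.lcm (q a) (F.lcm q) * H ^ ((F.card + 1) ^ 2) := by
        refine Nat.mul_le_mul_left _ (Nat.pow_le_pow_right hH ?_)
        nlinarith

/-- a set of points with gaps at least `c` -/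
lemma chain (c : ℕ) : ∀ (r : ℕ) (F : Finset ℕ) (n n' : ℕ), F.card = r → n < n' →
    (∀ x ∈ F, n < x ∧ x < n') →
    (∀ x y, (x = n ∨ x ∈ F) → (y ∈ F ∨ y = n') → x < y → c ≤ y - x) →
    (r + 1) * c ≤ n' - n := by
  intro r
  induction r with
  | zero =>
    intro F n n' _ hnn _ hc
    have := hc n n' (Or.inl rfl) (Or.inr rfl) hnn
    omega
  | succ r ih =>
    intro F n n' hF hnn hx hc
    have hne : F.Nonempty := card_pos.1 (by omega)
    obtain ⟨y, hy⟩ : ∃ y, y = F.max' hne := ⟨_, rfl⟩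
    have hyF : y ∈ F := by rw [hy]; exact F.max'_mem hne
    have hmax : ∀ x ∈ F, x ≤ y := fun x hxF => by rw [hy]; exact F.le_max' x hxF
    have hyx := hx y hyF
    have h1 := ih (F.erase y) n y (by rw [card_erase_of_mem hyF]; omega) hyx.1
      (fun x hxF => by
        rw [mem_erase] at hxF
        have := hmax x hxF.2
        have := (hx x hxF.2).1
        omega)
      (fun x z hx1 hz1 hxz => by
        refine hc x z ?_ ?_ hxz
        · rcases hx1 with h | h
          · exact Or.inl h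
          · exact Or.inr (mem_of_mem_erase h)
        · rcases hz1 with h | h
          · exact Or.inl (mem_of_mem_erase h)
          · rw [h]; exact Or.inl hyF)
    have h2 := hc y n' (Or.inr hyF) (Or.inr rfl) hyx.2
    have e : (r + 1 + 1) * c = (r + 1) * c + c := by ring
    rw [e]
    omega

end Pool.Agent.K9h6.GR
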