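import Pool.Agent.K9h6.GR.Sum

/-!
# The gcd recursion for prime triples, beyond powers of the logarithm: growth from level to level
-/

set_option autoImplicit false

namespace Pool.Agent.K9h6.GR

open Finset Pool.Agent.R701.GD

variable {K D s N f : ℕ} {A : ℕ → ℕ}

/-- the rare steps: fewer than `R` steps of `G M'` in between -/
noncomputable def Rare (D s f : ℕ) (A : ℕ → ℕ) (L M M' R : ℕ) : Finset ℕ :=
  open Classical in (range R).biUnion (fun r => Rr D s f A L M M' r)

lemma growth {L R : ℕ} (Ms : ℕ → ℕ) (hmono : ∀ j, Ms j ≤ Ms (j + 1)) (J : ℕ) :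
    ∀ i, i ≤ J → ∀ n n', n ∈ G D s f A (Ms (J - i)) → n' ∈ G D s f A (Ms (J - i)) → n < n' →
      n' ≤ n + L → (∀ k, n ≤ k → k < n' → ∀ j < J, k ∉ Rare D s f A L (Ms j) (Ms (j + 1)) R) →
      (R + 1) ^ i ≤ n' - n := by
  classical
  intro i
  induction i with
  | zero =>
    intro _ n n' _ _ hlt _ _
    rw [pow_zero]
    omega
  | succ i ih =>
    intro hi n n' hn hn' hlt hle hnr
    obtain ⟨j, hj⟩ : ∃ j, j = J - (i + 1) := ⟨_, rfl⟩
    have hjJ : j < J := by omega
    have hj1 : J - i = j + 1 := by omega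
    rw [← hj] at hn hn'
    set F := (G D s f A (Ms (j + 1))).filter (fun k => n < k ∧ k < n') with hF
    have hcard : R ≤ F.card := by
      by_contra hc
      push Not at hc
      apply hnr n le_rfl hlt j hjJ
      unfold Rare
      rw [mem_biUnion]
      refine ⟨F.card, mem_range.2 hc, ?_⟩
      unfold Rr
      rw [mem_filter]
      exact ⟨hn, n', hn', hlt, hle, by rw [hF]⟩
    have hmem : ∀ x, (x = n ∨ x ∈ F) → x ∈ G D s f A (Ms (j + 1)) ∧ n ≤ x := by
      rintro x (rfl | hx)
      · exact ⟨G_mono (hmono j) hn, le_rfl⟩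
      · rw [hF, mem_filter] at hx
        exact ⟨hx.1, hx.2.1.le⟩
    have hmem' : ∀ x, (x ∈ F ∨ x = n') → x ∈ G D s f A (Ms (j + 1)) ∧ x ≤ n' := by
      rintro x (hx | rfl)
      · rw [hF, mem_filter] at hx
        exact ⟨hx.1, hx.2.2.le⟩
      · exact ⟨G_mono (hmono j) hn', le_rfl⟩
    have hch := chain ((R + 1) ^ i) F.card F n n' rfl hlt
      (fun x hx => by rw [hF, mem_filter] at hx; exact hx.2)
      (fun x y hx hy hxy => by
        have a1 := hmem x hx
        have a2 := hmem' y hy
        refine ih (by omega) x y (by rw [hj1]; exact a1.1) (by rw [hj1]; exact a2.1) hxy (by omega) ?_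
        intro k hk1 hk2
        exact hnr k (by omega) (by omega))
    calc (R + 1) ^ (i + 1) = (R + 1) * (R + 1) ^ i := by rw [pow_succ]; ring
      _ ≤ (F.card + 1) * (R + 1) ^ i := Nat.mul_le_mul_right _ (by omega)
      _ ≤ n' - n := hch

/-- the steps with a very large gcd are isolated or near a rare step -/
lemma total {L R J : ℕ} (hL : 1 ≤ L) (Ms : ℕ → ℕ) (hmono : ∀ j, Ms j ≤ Ms (j + 1))
    (hgrow : L < (R + 1) ^ J) :
    (G D s f A (Ms 0)).card ≤ (f / L + 1) +
      L * ∑ j ∈ range J, ∑ r ∈ range R, (Rr D s f A L (Ms j) (Ms (j + 1)) r).card := by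
  classical
  set G0 := G D s f A (Ms 0) with hG0
  set Iso := G0.filter (fun n => ¬ ∃ n' ∈ G0, n < n' ∧ n' ≤ n + L) with hIso
  set Q := G0.filter (fun n => ∃ n' ∈ G0, n < n' ∧ n' ≤ n + L) with hQ
  have hsplit : G0.card = Q.card + Iso.card :=
    (card_filter_add_card_filter_not (s := G0) (fun n => ∃ n' ∈ G0, n < n' ∧ n' ≤ n + L)).symm
  have hIsoc : Iso.card ≤ f / L + 1 := by
    have : Iso.card ≤ (range (f / L + 1)).card := by
      apply card_le_card_of_injOn (fun n => n / L)
      · intro n hn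
        have hn' : n ∈ Iso := hn
        rw [hIso, mem_filter, hG0, mem_G, mem_W] at hn'
        simp only [coe_range, Set.mem_Iio]
        exact Nat.lt_succ_of_le (Nat.div_le_div_right hn'.1.1.1.2)
      · intro n₁ h1 n₂ h2 heq
        have h1' : n₁ ∈ Iso := h1
        have h2' : n₂ ∈ Iso := h2
        rw [hIso, mem_filter] at h1' h2'
        simp only at heq
        have key : ∀ x y : ℕ, x / L = y / L → y ∈ G0 →
            (¬ ∃ n' ∈ G0, x < n' ∧ n' ≤ x + L) → ¬ x < y := by
          intro x y hxy hy hx2 hlt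
          apply hx2
          refine ⟨y, hy, hlt, ?_⟩
          have a1 := Nat.div_add_mod x L
          have a2 := Nat.div_add_mod y L
          have a3 := Nat.mod_lt y (show 0 < L by omega)
          rw [hxy] at a1
          omega
        have k1 := key n₁ n₂ heq h2'.1 h1'.2
        have k2 := key n₂ n₁ heq.symm h1'.1 h2'.2
        omega
    simpa using this
  set B := (range J).biUnion (fun j => Rare D s f A L (Ms j) (Ms (j + 1)) R) with hB
  have hQsub : Q ⊆ B.biUnion (fun k => Ioc (k - L) k) := by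
    intro n hn
    rw [hQ, mem_filter] at hn
    obtain ⟨hn0, n', hn0', h1, h2⟩ := hn
    have hex : ∃ k, n ≤ k ∧ k < n' ∧ ∃ j < J, k ∈ Rare D s f A L (Ms j) (Ms (j + 1)) R := by
      by_contra hcon
      push Not at hcon
      have := growth (D := D) (s := s) (f := f) (A := A) (L := L) (R := R) Ms hmono J J
        le_rfl n n' (by rw [Nat.sub_self]; exact hn0) (by rw [Nat.sub_self]; exact hn0') h1 h2 hcon
      omega
    obtain ⟨k, hk1, hk2, j, hj, hk⟩ := hex
    rw [mem_biUnion]
    refine ⟨k, ?_, ?_⟩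
    · rw [hB, mem_biUnion]
      exact ⟨j, mem_range.2 hj, hk⟩
    · rw [mem_Ioc]
      rw [hG0, mem_G, mem_W] at hn0
      omega
  have hQc : Q.card ≤ B.card * L := by
    refine (card_le_card hQsub).trans (card_biUnion_le_card_mul _ _ _ ?_)
    intro k _
    rw [Nat.card_Ioc]
    omega
  have hBc : B.card ≤ ∑ j ∈ range J, ∑ r ∈ range R, (Rr D s f A L (Ms j) (Ms (j + 1)) r).card := by
    refine card_biUnion_le.trans (sum_le_sum fun j _ => ?_)
    unfold Rare
    exact card_biUnion_le
  have := Nat.mul_le_mul_right L hBc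
  rw [mul_comm L]
  omega

end Pool.Agent.K9h6.GR
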