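import Mathlib.NumberTheory.Harmonic.Bounds
import Pool.Agent.K9h6.GR.Growth

/-!
# The gcd recursion for prime triples, beyond powers of the logarithm: the contradiction
-/

set_option autoImplicit false

namespace Pool.Agent.K9h6.GR

open Finset Pool.Agent.R701.GD

variable {K D s N f : ℕ} {A : ℕ → ℕ}

lemma sum_inv_le (n : ℕ) : ∑ x ∈ Icc 1 n, (1 / (x : ℝ)) ≤ 1 + Real.log n := by
  have h := harmonic_le_one_add_log n
  rw [harmonic_eq_sum_Icc] at h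
  push_cast at h
  simpa [one_div] using h

/-- the numeric bounds for the constants -/
lemma consts {L M : ℕ} (hK : 1 ≤ K) (hD : 2 ≤ D) (hL : 16 * K ^ 2 * D ≤ L) (hM : 1 ≤ M) :
    (32 : ℝ) ≤ L ∧ (K : ℝ) ≤ L / 32 ∧ (4 * K * D : ℝ) ≤ L / 4 ∧ (C1 K D L : ℝ) ≤ (L : ℝ) ^ 3 ∧
      (128 * K ^ 3 * D : ℝ) ≤ (L : ℝ) ^ 2 ∧ (NC K D L M : ℝ) ≤ (L : ℝ) ^ 7 * (M : ℝ) ^ 4 := by
  obtain ⟨x, hx⟩ : ∃ x : ℝ, x = L := ⟨_, rfl⟩
  obtain ⟨k, hk⟩ : ∃ k : ℝ, k = K := ⟨_, rfl⟩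
  obtain ⟨d, hd⟩ : ∃ d : ℝ, d = D := ⟨_, rfl⟩
  obtain ⟨y, hy⟩ : ∃ y : ℝ, y = M := ⟨_, rfl⟩
  have hLR : 16 * k ^ 2 * d ≤ x := by rw [hk, hd, hx]; exact_mod_cast hL
  have hk1 : 1 ≤ k := by rw [hk]; exact_mod_cast hK
  have hd2 : 2 ≤ d := by rw [hd]; exact_mod_cast hD
  have hy1 : 1 ≤ y := by rw [hy]; exact_mod_cast hM
  have hk2 : 1 ≤ k ^ 2 := one_le_pow₀ hk1
  have hkk : k ≤ k ^ 2 := by nlinarith
  have e1 : 32 * k ^ 2 ≤ x := by nlinarith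
  have e2 : 32 ≤ x := by linarith
  have e3 : k ≤ x / 32 := by linarith
  have e4 : k ^ 2 * d ≤ x / 16 := by linarith
  have e5 : d ≤ x / 16 := by nlinarith
  have e6 : k * d ≤ x / 16 := by nlinarith
  have x0 : 0 < x := by linarith
  have f1 : (24 * k ^ 2 * d ^ 2 * (x + 6)) ≤ x ^ 3 := by
    calc 24 * k ^ 2 * d ^ 2 * (x + 6) = 24 * ((k ^ 2 * d) * d) * (x + 6) := by ring
      _ ≤ 24 * ((x / 16) * (x / 16)) * (x + 6) := by gcongr
      _ ≤ 24 * ((x / 16) * (x / 16)) * (2 * x) := by gcongr; linarith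
      _ = 48 / 256 * x ^ 3 := by ring
      _ ≤ x ^ 3 := by nlinarith [pow_pos x0 3]
  have f2 : 128 * k ^ 3 * d ≤ x ^ 2 := by
    calc 128 * k ^ 3 * d = 128 * ((k ^ 2 * d) * k) := by ring
      _ ≤ 128 * ((x / 16) * (x / 32)) := by gcongr
      _ = 1 / 4 * x ^ 2 := by ring
      _ ≤ x ^ 2 := by nlinarith [pow_pos x0 2]
  have c1 : (C1 K D L : ℝ) = 24 * k ^ 2 * d ^ 2 * (x + 6) := by
    unfold C1
    push_cast
    rw [hk, hd, hx]
  have c2 : (NC K D L M : ℝ) = 3 * (x * ((2 * k * y) * ((2 * k * y) *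
      (2 * (C1 K D L * (2 * k * y) ^ 2) + 1)))) := by
    unfold NC
    push_cast
    rw [hk, hx, hy]
  have f3 : (2 * k * y) * (2 * k * y) ≤ x * y ^ 2 := by
    have : (2 * k * y) * (2 * k * y) = 4 * k ^ 2 * y ^ 2 := by ring
    rw [this]
    gcongr
    linarith
  have f4 : 2 * ((C1 K D L : ℝ) * (2 * k * y) ^ 2) + 1 ≤ 3 * (x ^ 4 * y ^ 2) := by
    have g1 : (C1 K D L : ℝ) * (2 * k * y) ^ 2 ≤ x ^ 3 * (x * y ^ 2) := by
      rw [sq (2 * k * y)]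
      have : (C1 K D L : ℝ) ≤ x ^ 3 := by rw [c1]; exact f1
      gcongr
    have g2 : 1 ≤ x ^ 4 * y ^ 2 := by
      have : 1 ≤ x ^ 4 := one_le_pow₀ (by linarith)
      have : 1 ≤ y ^ 2 := one_le_pow₀ hy1
      nlinarith
    have g3 : x ^ 3 * (x * y ^ 2) = x ^ 4 * y ^ 2 := by ring
    linarith
  refine ⟨by rw [← hx]; exact e2, by rw [← hx, ← hk]; exact e3, ?_, ?_, ?_, ?_⟩
  · rw [← hx, ← hk, ← hd]
    linarith
  · rw [c1, ← hx]; exact f1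
  · rw [← hk, ← hd, ← hx]; exact f2
  · rw [c2, ← hx, ← hy]
    have hC0 : (0 : ℝ) ≤ C1 K D L := Nat.cast_nonneg _
    calc 3 * (x * ((2 * k * y) * ((2 * k * y) * (2 * (C1 K D L * (2 * k * y) ^ 2) + 1))))
        = 3 * (x * (((2 * k * y) * (2 * k * y)) * (2 * (C1 K D L * (2 * k * y) ^ 2) + 1))) := by ring
      _ ≤ 3 * (x * ((x * y ^ 2) * (3 * (x ^ 4 * y ^ 2)))) := by gcongr
      _ = 9 * x ^ 6 * y ^ 4 := by ring
      _ ≤ x * x ^ 6 * y ^ 4 := by gcongr; linarith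
      _ = x ^ 7 * y ^ 4 := by ring

/-- the rare steps are few -/
lemma small_Rr (h : Dat K D s N f A) {L R M r : ℕ} (hL : 16 * K ^ 2 * D ≤ L) (hR : 2 ≤ R)
    (hRL : R ≤ L) (hr : r < R) (hM : L ^ (18 + 3 * R + 2 * R ^ 2) ≤ M) (hs : M ^ (8 * (R + 1)) ≤ s)
    (hlog : 1 + Real.log s ≤ L) :
    (L : ℝ) ^ 4 * (Rr D s f A L M (M ^ 8) r).card ≤ s := by
  have hK := h.K1
  have hD := h.D2
  have hs1 := h.s1
  have hL32 : 32 ≤ L := by
    have : 1 ≤ K ^ 2 := Nat.one_le_pow _ _ hK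
    nlinarith
  have hLM : L ^ 2 ≤ M := (Nat.pow_le_pow_right (by omega) (by omega)).trans hM
  have hLM' : 3 * L < M := by nlinarith
  have hM1 : 1 ≤ M := by omega
  obtain ⟨c1, c2, c3, c4, c5, c6⟩ := consts hK hD hL hM1
  have hMM : M ≤ M ^ 8 := Nat.le_self_pow (by norm_num) M
  have hM8 : 1 ≤ M ^ 8 := Nat.one_le_pow _ _ hM1
  have hM18 : M ^ 18 ≤ s := (Nat.pow_le_pow_right hM1 (by omega)).trans hs
  have hsmall : 10 * D * (2 * K * M ^ 8) ^ 2 < s := by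
    calc 10 * D * (2 * K * M ^ 8) ^ 2 = 40 * K ^ 2 * D * M ^ 16 := by ring
      _ ≤ 48 * K ^ 2 * D * M ^ 16 := by gcongr; norm_num
      _ = 3 * (16 * K ^ 2 * D) * M ^ 16 := by ring
      _ ≤ 3 * L * M ^ 16 := by gcongr
      _ < M * M ^ 16 := by gcongr
      _ = M ^ 17 * 1 := by ring
      _ ≤ M ^ 17 * M := by gcongr
      _ = M ^ 18 := by ring
      _ ≤ s := hM18
  have hc := card_Rr h (L := L) (M := M) (M' := M ^ 8) (r := r) hM8 hMM hsmall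
  -- the harmonic sum
  have hX1 : 1 ≤ 2 * K * M ^ 8 := by
    have : 0 < 2 * K * M ^ 8 := by positivity
    omega
  have hXs : 2 * K * M ^ 8 ≤ s := by
    calc 2 * K * M ^ 8 ≤ 10 * D * (2 * K * M ^ 8) ^ 2 := by
          have : 2 * K * M ^ 8 ≤ (2 * K * M ^ 8) ^ 2 := Nat.le_self_pow (by norm_num) _
          nlinarith
      _ ≤ s := hsmall.le
  have hH : (∑ x ∈ Icc (1 : ℕ) (2 * K * M ^ 8), (1 / (x : ℝ))) ≤ (L : ℝ) := by
    refine (sum_inv_le _).trans (le_trans ?_ hlog)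
    have : Real.log ((2 * K * M ^ 8 : ℕ) : ℝ) ≤ Real.log s := by
      apply Real.log_le_log
      · exact_mod_cast hX1
      · exact_mod_cast hXs
    linarith
  have hH0 : (0 : ℝ) ≤ ∑ x ∈ Icc (1 : ℕ) (2 * K * M ^ 8), (1 / (x : ℝ)) :=
    sum_nonneg fun x _ => by positivity
  -- real variables
  obtain ⟨x, hx⟩ : ∃ x : ℝ, x = L := ⟨_, rfl⟩
  obtain ⟨y, hy⟩ : ∃ y : ℝ, y = M := ⟨_, rfl⟩
  rw [← hx] at c1 c2 c3 c4 c5 c6 hc hH
  rw [← hy] at c6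
  have hy1 : 1 ≤ y := by rw [hy]; exact_mod_cast hM1
  have hx1 : 1 ≤ x := by linarith
  have hx0 : 0 < x := by linarith
  have hy0 : 0 < y := by linarith
  have hyx : x ^ (18 + 3 * R + 2 * R ^ 2) ≤ y := by rw [hx, hy]; exact_mod_cast hM
  have hys : y ^ (8 * (R + 1)) ≤ s := by rw [hy]; exact_mod_cast hs
  have hrR : (r : ℝ) ≤ x := by
    rw [hx]
    exact_mod_cast (show r ≤ L by omega)
  have hsR : (0 : ℝ) < s := by exact_mod_cast (show 0 < s by omega)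
  have hr1 : r ≤ R := hr.le
  have hr2 : r ^ 2 ≤ R ^ 2 := Nat.pow_le_pow_left hr1 2
  have b1 : (x + 1) ^ r ≤ x ^ (2 * R) := by
    calc (x + 1) ^ r ≤ (x ^ 2) ^ r := by gcongr; nlinarith
      _ ≤ (x ^ 2) ^ R := pow_le_pow_right₀ (one_le_pow₀ hx1) hr1
      _ = x ^ (2 * R) := by rw [← pow_mul]
  have b2 : ((2 * K * M ^ 8 : ℕ) : ℝ) ^ r ≤ x ^ R * y ^ (8 * R) := by
    have g1 : ((2 * K * M ^ 8 : ℕ) : ℝ) ≤ x * y ^ 8 := by
      push_cast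
      rw [← hy]
      gcongr
      linarith
    have g2 : 1 ≤ x * y ^ 8 := by
      have : 1 ≤ y ^ 8 := one_le_pow₀ hy1
      nlinarith
    calc ((2 * K * M ^ 8 : ℕ) : ℝ) ^ r ≤ (x * y ^ 8) ^ r := by gcongr
      _ ≤ (x * y ^ 8) ^ R := pow_le_pow_right₀ g2 hr1
      _ = x ^ R * y ^ (8 * R) := by rw [mul_pow, ← pow_mul]
  have b3 : (x + 6) ^ (r ^ 2) ≤ x ^ (2 * R ^ 2) := by
    calc (x + 6) ^ (r ^ 2) ≤ (x ^ 2) ^ (r ^ 2) := by gcongr; nlinarith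
      _ ≤ (x ^ 2) ^ (R ^ 2) := pow_le_pow_right₀ (one_le_pow₀ hx1) hr2
      _ = x ^ (2 * R ^ 2) := by rw [← pow_mul]
  have b4 : (∑ x ∈ Icc (1 : ℕ) (2 * K * M ^ 8), (1 / (x : ℝ))) ^ r ≤ x ^ R := by
    calc (∑ x ∈ Icc (1 : ℕ) (2 * K * M ^ 8), (1 / (x : ℝ))) ^ r ≤ x ^ r := by gcongr
      _ ≤ x ^ R := pow_le_pow_right₀ hx1 hr1
  have b5 : TR K D s L (M ^ 8) r ≤ x ^ 6 + x ^ 3 * s / y ^ 8 := by
    unfold TR
    push_cast
    rw [← hx, ← hy]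
    have g1 : (128 * K ^ 3 * D : ℝ) * (C1 K D L + r * (x + 6)) ≤ x ^ 2 * (x ^ 3 + x * (x + 6)) := by
      gcongr
    have g2 : x ^ 2 * (x ^ 3 + x * (x + 6)) ≤ x ^ 6 := by
      have : x ^ 3 + x * (x + 6) ≤ 2 * x ^ 3 := by nlinarith
      calc x ^ 2 * (x ^ 3 + x * (x + 6)) ≤ x ^ 2 * (2 * x ^ 3) := by gcongr
        _ = 2 * x ^ 5 := by ring
        _ ≤ x * x ^ 5 := by gcongr; linarith
        _ = x ^ 6 := by ring
    have g3 : (128 * K ^ 3 * D * x * s / y ^ 8 : ℝ) ≤ x ^ 3 * s / y ^ 8 := by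
      gcongr
      calc (128 * K ^ 3 * D : ℝ) * x ≤ x ^ 2 * x := by gcongr
        _ = x ^ 3 := by ring
    linarith
  have hTR0 : 0 ≤ TR K D s L (M ^ 8) r := by unfold TR; positivity
  have hmain : ((Rr D s f A L M (M ^ 8) r).card : ℝ) ≤ (x ^ 7 * y ^ 4) * x ^ (2 * R) *
      (x ^ R * y ^ (8 * R) + (x ^ 6 + x ^ 3 * s / y ^ 8) * x ^ (2 * R ^ 2) * x ^ R) := by
    refine hc.trans ?_
    gcongr
  -- the three terms
  have t1 : x * (x ^ 11 * y ^ 4 * x ^ (2 * R) * (x ^ R * y ^ (8 * R))) ≤ s := by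
    calc x * (x ^ 11 * y ^ 4 * x ^ (2 * R) * (x ^ R * y ^ (8 * R)))
        = x ^ (12 + 3 * R) * y ^ (8 * R + 4) := by
          rw [show 12 + 3 * R = 1 + 11 + 2 * R + R by ring, pow_add, pow_add, pow_add, pow_add]
          ring
      _ ≤ x ^ (18 + 3 * R + 2 * R ^ 2) * y ^ (8 * R + 4) :=
          mul_le_mul_of_nonneg_right (pow_le_pow_right₀ hx1 (by omega)) (by positivity)
      _ ≤ y * y ^ (8 * R + 4) := by gcongr
      _ = y ^ (8 * R + 5) := by ring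
      _ ≤ y ^ (8 * (R + 1)) := pow_le_pow_right₀ hy1 (by omega)
      _ ≤ s := hys
  have t2 : x * (x ^ 11 * y ^ 4 * x ^ (2 * R) * (x ^ 6 * x ^ (2 * R ^ 2) * x ^ R)) ≤ s := by
    calc x * (x ^ 11 * y ^ 4 * x ^ (2 * R) * (x ^ 6 * x ^ (2 * R ^ 2) * x ^ R))
        = x ^ (18 + 3 * R + 2 * R ^ 2) * y ^ 4 := by
          rw [show 18 + 3 * R + 2 * R ^ 2 = 1 + 11 + 2 * R + (6 + 2 * R ^ 2 + R) by ring, pow_add,
            pow_add, pow_add, pow_add, pow_add]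
          ring
      _ ≤ y * y ^ 4 := by gcongr
      _ = y ^ 5 := by ring
      _ ≤ y ^ (8 * (R + 1)) := pow_le_pow_right₀ hy1 (by omega)
      _ ≤ s := hys
  have t3 : x * (x ^ 11 * y ^ 4 * x ^ (2 * R) * ((x ^ 3 * s / y ^ 8) * x ^ (2 * R ^ 2) * x ^ R))
      ≤ s := by
    calc x * (x ^ 11 * y ^ 4 * x ^ (2 * R) * ((x ^ 3 * s / y ^ 8) * x ^ (2 * R ^ 2) * x ^ R))
        = x ^ (15 + 3 * R + 2 * R ^ 2) * y ^ 4 / y ^ 8 * s := by
          rw [show 15 + 3 * R + 2 * R ^ 2 = 1 + 11 + 2 * R + (3 + 2 * R ^ 2 + R) by ring, pow_add,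
            pow_add, pow_add, pow_add, pow_add]
          ring
      _ ≤ (1 : ℝ) * s := by
          refine mul_le_mul_of_nonneg_right ?_ hsR.le
          rw [div_le_one (by positivity)]
          calc x ^ (15 + 3 * R + 2 * R ^ 2) * y ^ 4 ≤ x ^ (18 + 3 * R + 2 * R ^ 2) * y ^ 4 :=
                mul_le_mul_of_nonneg_right (pow_le_pow_right₀ hx1 (by omega)) (by positivity)
            _ ≤ y * y ^ 4 := by gcongr
            _ = y ^ 5 := by ring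
            _ ≤ y ^ 8 := pow_le_pow_right₀ hy1 (by norm_num)
      _ = (s : ℝ) := one_mul _
  rw [← hx]
  calc x ^ 4 * ((Rr D s f A L M (M ^ 8) r).card : ℝ)
      ≤ x ^ 4 * ((x ^ 7 * y ^ 4) * x ^ (2 * R) *
      (x ^ R * y ^ (8 * R) + (x ^ 6 + x ^ 3 * s / y ^ 8) * x ^ (2 * R ^ 2) * x ^ R)) := by gcongr
    _ = x ^ 11 * y ^ 4 * x ^ (2 * R) * (x ^ R * y ^ (8 * R)) +
        x ^ 11 * y ^ 4 * x ^ (2 * R) * (x ^ 6 * x ^ (2 * R ^ 2) * x ^ R) +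
        x ^ 11 * y ^ 4 * x ^ (2 * R) * ((x ^ 3 * s / y ^ 8) * x ^ (2 * R ^ 2) * x ^ R) := by ring
    _ ≤ s := by
        have p1 : 0 ≤ x ^ 11 * y ^ 4 * x ^ (2 * R) * (x ^ R * y ^ (8 * R)) := by positivity
        have p2 : 0 ≤ x ^ 11 * y ^ 4 * x ^ (2 * R) * (x ^ 6 * x ^ (2 * R ^ 2) * x ^ R) := by
          positivity
        have p3 : 0 ≤ x ^ 11 * y ^ 4 * x ^ (2 * R) *
            ((x ^ 3 * s / y ^ 8) * x ^ (2 * R ^ 2) * x ^ R) := by positivity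
        generalize x ^ 11 * y ^ 4 * x ^ (2 * R) * (x ^ R * y ^ (8 * R)) = w1 at *
        generalize x ^ 11 * y ^ 4 * x ^ (2 * R) * (x ^ 6 * x ^ (2 * R ^ 2) * x ^ R) = w2 at *
        generalize x ^ 11 * y ^ 4 * x ^ (2 * R) *
          ((x ^ 3 * s / y ^ 8) * x ^ (2 * R ^ 2) * x ^ R) = w3 at *
        nlinarith

/-- no fast descent -/
theorem core (h : Dat K D s N f A) {L R J : ℕ} (hL : 16 * K ^ 2 * D ≤ L) (hR : 2 ≤ R)
    (hRL : R ≤ L) (hJL : J ≤ L) (hlog : 1 + Real.log s ≤ L) (hgrow : L < (R + 1) ^ J)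
    (hbig : L ^ ((18 + 3 * R + 2 * R ^ 2) * 8 ^ J * (R + 1)) ≤ s) : False := by
  have hK := h.K1
  have hD := h.D2
  have hs1 := h.s1
  have hL32 : 32 ≤ L := by
    have : 1 ≤ K ^ 2 := Nat.one_le_pow _ _ hK
    nlinarith
  obtain ⟨E, hE⟩ : ∃ E, E = 18 + 3 * R + 2 * R ^ 2 := ⟨_, rfl⟩
  obtain ⟨Ms, hMs⟩ : ∃ Ms : ℕ → ℕ, Ms = fun j => L ^ (E * 8 ^ j) := ⟨_, rfl⟩
  have hMs1 : ∀ j, Ms (j + 1) = Ms j ^ 8 := by
    intro j
    rw [hMs]
    simp only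
    rw [← pow_mul]
    congr 1
    ring
  have hMpos : ∀ j, 1 ≤ Ms j := by
    intro j
    rw [hMs]
    exact Nat.one_le_pow _ _ (by omega)
  have hmono : ∀ j, Ms j ≤ Ms (j + 1) := by
    intro j
    rw [hMs1]
    exact Nat.le_self_pow (by norm_num) _
  have hMge : ∀ j, L ^ E ≤ Ms j := by
    intro j
    rw [hMs]
    exact Nat.pow_le_pow_right (by omega) (Nat.le_mul_of_pos_right _ (by positivity))
  have htot := total (D := D) (s := s) (f := f) (A := A) (L := L) (R := R) (J := J) (by omega) Ms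
    hmono hgrow
  have hM0 : 8 * K * D ≤ Ms 0 := by
    have hKK : K ≤ K ^ 2 := Nat.le_self_pow (by norm_num) K
    calc 8 * K * D ≤ 16 * K ^ 2 * D :=
          Nat.mul_le_mul_right _ (Nat.mul_le_mul (by norm_num) hKK)
      _ ≤ L := hL
      _ ≤ L ^ E := Nat.le_self_pow (by rw [hE]; omega) L
      _ ≤ Ms 0 := hMge 0
  have hmany := h.many (Ms 0) hM0
  have hfK := h.fK
  have hRrs : ∀ j ∈ range J, ∀ r ∈ range R,
      (L : ℝ) ^ 4 * (Rr D s f A L (Ms j) (Ms (j + 1)) r).card ≤ s := by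
    intro j hj r hr
    rw [mem_range] at hj hr
    rw [hMs1]
    refine small_Rr h hL hR hRL hr (by rw [← hE]; exact hMge j) ?_ hlog
    calc Ms j ^ (8 * (R + 1)) = L ^ (E * 8 ^ (j + 1) * (R + 1)) := by
          rw [hMs]
          simp only
          rw [← pow_mul]
          congr 1
          ring
      _ ≤ L ^ (E * 8 ^ J * (R + 1)) := by
          refine Nat.pow_le_pow_right (by omega) ?_
          gcongr
          · norm_num
          · omega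
      _ ≤ s := by rw [hE]; exact hbig
  obtain ⟨c1, c2, c3, -, -, -⟩ := consts hK hD hL (le_refl 1)
  -- the sum
  obtain ⟨T, hT⟩ : ∃ T, T = ∑ j ∈ range J, ∑ r ∈ range R,
    (Rr D s f A L (Ms j) (Ms (j + 1)) r).card := ⟨_, rfl⟩
  rw [← hT] at htot
  have hsR : (0 : ℝ) < s := by exact_mod_cast (show 0 < s by omega)
  have hTb : (L : ℝ) ^ 2 * T ≤ s := by
    have h1 : (L : ℝ) ^ 4 * T ≤ (J : ℝ) * (R * s) := by
      rw [hT]
      push_cast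
      rw [mul_sum]
      calc ∑ j ∈ range J, (L : ℝ) ^ 4 * ∑ r ∈ range R,
            ((Rr D s f A L (Ms j) (Ms (j + 1)) r).card : ℝ)
          ≤ ∑ j ∈ range J, (R * s : ℝ) := by
            refine sum_le_sum fun j hj => ?_
            rw [mul_sum]
            refine (sum_le_card_nsmul _ _ _ (hRrs j hj)).trans ?_
            rw [card_range, nsmul_eq_mul]
        _ = (J : ℝ) * (R * s) := by rw [sum_const, card_range, nsmul_eq_mul]
    have h2 : (J : ℝ) * (R * s) ≤ L * (L * s) := by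
      have a1 : (J : ℝ) ≤ L := by exact_mod_cast hJL
      have a2 : (R : ℝ) ≤ L := by exact_mod_cast hRL
      gcongr
    have h3 : (L : ℝ) ^ 2 * ((L : ℝ) ^ 2 * T) ≤ (L : ℝ) ^ 2 * s := by
      calc (L : ℝ) ^ 2 * ((L : ℝ) ^ 2 * T) = (L : ℝ) ^ 4 * T := by ring
        _ ≤ (L : ℝ) * (L * s) := h1.trans h2
        _ = (L : ℝ) ^ 2 * s := by ring
    exact le_of_mul_le_mul_left h3 (by positivity)
  have hmanyR : (s : ℝ) ≤ 4 * K * D * (G D s f A (Ms 0)).card := by exact_mod_cast hmany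
  have htotR : ((G D s f A (Ms 0)).card : ℝ) ≤ (f / L : ℕ) + 1 + L * T := by exact_mod_cast htot
  have hfL : ((f / L : ℕ) : ℝ) ≤ K * s / L := by
    have hL0 : (0 : ℝ) < L := by linarith
    refine (Nat.cast_div_le).trans ?_
    gcongr
    exact_mod_cast hfK
  have hKD : (4 * K * D : ℝ) * (K * s / L) ≤ s / 4 := by
    have hL0 : (0 : ℝ) < L := by linarith
    have : (16 * K ^ 2 * D : ℝ) ≤ L := by exact_mod_cast hL
    rw [mul_div_assoc', div_le_div_iff₀ hL0 (by norm_num)]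
    nlinarith
  have hLs : (L : ℝ) ≤ s := by
    have h1 : L ≤ L ^ ((18 + 3 * R + 2 * R ^ 2) * 8 ^ J * (R + 1)) :=
      Nat.le_self_pow (by positivity) L
    exact_mod_cast h1.trans hbig
  have h4 : (s : ℝ) ≤ s / 4 + s / 4 + s / 4 := by
    have hT0 : (0 : ℝ) ≤ T := Nat.cast_nonneg _
    calc (s : ℝ) ≤ 4 * K * D * ((f / L : ℕ) + 1 + L * T) := hmanyR.trans (by gcongr)
      _ ≤ 4 * K * D * (K * s / L + 1 + L * T) := by gcongr
      _ = 4 * K * D * (K * s / L) + 4 * K * D * 1 + 4 * K * D * (L * T) := by ring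
      _ ≤ s / 4 + L / 4 * 1 + L / 4 * (L * T) := by gcongr
      _ = s / 4 + L / 4 + (L : ℝ) ^ 2 * T / 4 := by ring
      _ ≤ s / 4 + s / 4 + s / 4 := by gcongr
  linarith

end Pool.Agent.K9h6.GR
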