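import Pool.Agent.K9h6.GR.Near

/-!
# The gcd recursion for prime triples, beyond powers of the logarithm: the number of rare steps
-/

set_option autoImplicit false

namespace Pool.Agent.K9h6.GR

open Finset Pool.Agent.R701.GD

variable {K D s N f : ℕ} {A : ℕ → ℕ}

/-- the steps of `G M` followed within `L` by another one, with exactly `r` steps of `G M'` in between -/
noncomputable def Rr (D s f : ℕ) (A : ℕ → ℕ) (L M M' r : ℕ) : Finset ℕ :=
  open Classical in
  (G D s f A M).filter (fun n => ∃ n' ∈ G D s f A M, n < n' ∧ n' ≤ n + L ∧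
    ((G D s f A M').filter (fun k => n < k ∧ k < n')).card = r)

/-- the data of a rare step -/
lemma exists_data (h : Dat K D s N f A) {L M M' r : ℕ} (hMM : M ≤ M')
    (hs : 10 * D * (2 * K * M') ^ 2 < s) {n : ℕ} (hn : n ∈ Rr D s f A L M M' r) :
    ∃ (t μ μ' : ℕ) (m : ℤ) (p q : Fin r → ℕ), Rel3 K D s f A L M' r n t μ μ' m p q ∧
      1 ≤ t ∧ t ≤ L ∧ μ ≤ 2 * K * M ∧ μ' ≤ 2 * K * M ∧ (∀ i, q i ≤ 2 * K * M') := by
  classical
  unfold Rr at hn
  rw [mem_filter] at hn
  obtain ⟨hnG, n', hnG', h1, h2, hcard⟩ := hn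
  have hW := (mem_G.1 hnG).1
  have hW' := (mem_G.1 hnG').1
  have hn2 := (mem_W.1 hW).1.1
  have hn2' := (mem_W.1 hW').1.1
  obtain ⟨μ, hμ⟩ := g_dvd_v (A := A) n
  obtain ⟨μ', hμ'⟩ := g_dvd_v (A := A) n'
  have hμ1 := mu_pos (by omega) hμ
  have hμ1' := mu_pos (by omega) hμ'
  have hμb := mu_le h hnG hμ
  have hμb' := mu_le h hnG' hμ'
  obtain ⟨m, hm, hrel⟩ := rel h hW hW' h1 h2 hμ hμ'
  set F := (G D s f A M').filter (fun k => n < k ∧ k < n') with hF
  have hFm : ∀ k ∈ F, k ∈ G D s f A M' ∧ n < k ∧ k < n' := fun k hk => by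
    rw [hF, mem_filter] at hk; exact hk
  set e := F.orderEmbOfFin hcard with he
  have heF : ∀ i, e i ∈ F := fun i => F.orderEmbOfFin_mem hcard i
  have small : ∀ a c : ℕ, a ≤ 2 * K * M' → c ≤ 2 * K * M' → 10 * D * (a * c) < s := by
    intro a c ha hc
    calc 10 * D * (a * c) ≤ 10 * D * ((2 * K * M') * (2 * K * M')) := by gcongr
      _ = 10 * D * (2 * K * M') ^ 2 := by ring
      _ < s := hs
  -- the quotients
  have hq : ∀ i, v (e i) = g A (e i) * (v (e i) / g A (e i)) := fun i =>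
    (Nat.mul_div_cancel' (g_dvd_v (A := A) (e i))).symm
  have hpe : ∀ i, n + (e i - n) = e i := fun i => by
    have := (hFm (e i) (heF i)).2.1
    omega
  have hqb : ∀ i, v (e i) / g A (e i) ≤ 2 * K * M' := fun i => mu_le h (hFm _ (heF i)).1 (hq i)
  have hq1 : ∀ i, 1 ≤ v (e i) / g A (e i) := fun i => by
    have := (hFm (e i) (heF i)).2.1
    exact mu_pos (A := A) (n := e i) (by omega) (hq i)
  refine ⟨n' - n, μ, μ', m, fun i => e i - n, fun i => v (e i) / g A (e i), ?_, by omega, by omega,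
    hμb, hμb', hqb⟩
  have hn'e : n + (n' - n) = n' := by omega
  refine ⟨hW, hμ1, hμ1', hm, ?_, ?_, ?_, ?_⟩
  · intro i
    have h3 := hFm (e i) (heF i)
    refine ⟨?_, hq1 i, ?_⟩
    · show e i - n ≤ L
      omega
    · show v (e i) / g A (e i) ∣ v (n + (e i - n))
      rw [hpe]
      exact Nat.div_dvd_of_dvd (g_dvd_v (e i))
  · have key : ∀ i j, i < j →
        Nat.gcd (v (e i) / g A (e i)) (v (e j) / g A (e j)) ≤ L + 6 := by
      intro i j hij
      have hlt : e i < e j := e.strictMono hij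
      have a1 := hFm (e i) (heF i)
      have a2 := hFm (e j) (heF j)
      exact gcd_le h (L := L) (mem_G.1 a1.1).1 (mem_G.1 a2.1).1 hlt (by omega) (hq i) (hq j)
        (small _ _ (hqb i) (hqb j))
    intro i j hij
    rcases lt_or_gt_of_ne hij with hlt | hlt
    · exact key i j hlt
    · rw [Nat.gcd_comm]
      exact key j i hlt
  · rw [hn'e]
    refine v_ne_of_small h hW hW' h1 h2 hμ hμ' (small _ _ ?_ ?_)
    · exact hμb.trans (Nat.mul_le_mul_left _ hMM)
    · exact hμb'.trans (Nat.mul_le_mul_left _ hMM)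
  · set R := (Ico (n + 1) n').filter (fun k => k ∉ F) with hR
    refine ⟨∑ k ∈ R, g A k, ?_, ?_⟩
    · rw [mul_sum]
      calc ∑ k ∈ R, M' * g A k ≤ R.card • s := by
            apply sum_le_card_nsmul
            intro k hk
            rw [hR, mem_filter, mem_Ico] at hk
            have hkW : k ∈ W D s f := convex hW hW' (by omega) (by omega)
            have hkG : k ∉ G D s f A M' := by
              intro hkG
              apply hk.2
              rw [hF, mem_filter]
              exact ⟨hkG, by omega, by omega⟩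
            rw [mem_G] at hkG
            push Not at hkG
            exact (hkG hkW).le
        _ ≤ (Ico (n + 1) n').card • s := by
            rw [smul_eq_mul, smul_eq_mul]
            exact Nat.mul_le_mul_right _ (card_le_card (filter_subset _ _))
        _ ≤ L * s := by
            rw [Nat.card_Ico, smul_eq_mul]
            exact Nat.mul_le_mul_right _ (by omega)
    · have hsub : (Ico (n + 1) n').filter (fun k => k ∈ F) = F := by
        ext k
        rw [mem_filter, mem_Ico]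
        constructor
        · exact fun hk => hk.2
        · intro hk
          have := hFm k hk
          exact ⟨by omega, hk⟩
      have hsplit : ∑ k ∈ Ico (n + 1) n', g A k = ∑ k ∈ F, g A k + ∑ k ∈ R, g A k := by
        rw [← sum_filter_add_sum_filter_not (Ico (n + 1) n') (fun k => k ∈ F), hsub]
      have hFsum : ((∑ k ∈ F, g A k : ℕ) : ℝ) =
          ∑ i : Fin r, (v (n + (e i - n)) : ℝ) / ((v (e i) / g A (e i) : ℕ) : ℝ) := by
        have e1 : ∑ k ∈ F, g A k = ∑ i : Fin r, g A (e i) := by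
          rw [← F.map_orderEmbOfFin_univ hcard, sum_map]
          rfl
        rw [e1]
        push_cast
        refine sum_congr rfl fun i _ => ?_
        rw [hpe]
        have h5 : (((v (e i) / g A (e i) : ℕ) : ℝ)) ≠ 0 := by
          have := hq1 i
          positivity
        rw [eq_div_iff h5]
        exact_mod_cast (hq i).symm
      rw [← hFsum, hn'e]
      rw [hsplit] at hrel
      have hrelR : ((v n' : ℝ) - v n) * μ * μ' * (A n : ℝ) = (m - μ') * (v n : ℝ) ^ 2 +
          (m * ((v n' : ℝ) - v n) - μ * μ' * ((∑ k ∈ F, g A k + ∑ k ∈ R, g A k : ℕ) : ℝ)) *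
          (v n : ℝ) := by
        exact_mod_cast hrel
      rw [Nat.cast_add] at hrelR
      linarith

/-- the number of the steps with the same data -/
lemma fiber_le (h : Dat K D s N f A) {L M' r : ℕ} (hM' : 1 ≤ M') (F : Finset ℕ) (c : ℕ)
    (t μ μ' : ℕ) (m : ℤ) (p q : Fin r → ℕ) (hF3 : ∀ n ∈ F, n % 3 = c)
    (hF : ∀ n ∈ F, Rel3 K D s f A L M' r n t μ μ' m p q) :
    (F.card : ℝ) ≤ 1 + TR K D s L M' r * ((L : ℝ) + 6) ^ (r ^ 2) * ∏ i, (1 / (q i : ℝ)) := by
  classical
  have hTR : 0 ≤ TR K D s L M' r := by unfold TR; positivity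
  rcases F.eq_empty_or_nonempty with he | hne
  · rw [he]
    simp only [card_empty, Nat.cast_zero]
    positivity
  obtain ⟨n₀, hn₀⟩ : ∃ n₀, n₀ = F.min' hne := ⟨_, rfl⟩
  have hn₀F : n₀ ∈ F := by rw [hn₀]; exact F.min'_mem hne
  have hmin : ∀ n ∈ F, n₀ ≤ n := fun n hn => by rw [hn₀]; exact F.min'_le n hn
  have hr0 := hF n₀ hn₀F
  obtain ⟨Q, hQ⟩ : ∃ Q, Q = (univ : Finset (Fin r)).lcm q := ⟨_, rfl⟩
  have hq1 : ∀ i, 1 ≤ q i := fun i => (hr0.2.2.2.2.1 i).2.1
  have hQ0 : 0 < Q := by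
    rw [hQ]
    apply Nat.pos_of_ne_zero
    rw [Ne, Finset.lcm_eq_zero_iff]
    rintro ⟨i, -, hi⟩
    have := hq1 i
    omega
  have hdvd : ∀ n ∈ F, Q ∣ n - n₀ := by
    intro n hn
    rw [hQ]
    apply Finset.lcm_dvd
    intro i _
    have d1 := ((hF n hn).2.2.2.2.1 i).2.2
    have d2 := (hr0.2.2.2.2.1 i).2.2
    have hle := hmin n hn
    have sh := v_shift (show n₀ % 3 = n % 3 by rw [hF3 n hn, hF3 n₀ hn₀F]) (p i)
    have e : v (n + p i) = v (n₀ + p i) + (n - n₀) := by omega
    rw [e] at d1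
    exact (Nat.dvd_add_right d2).1 d1
  have hnear : ∀ n ∈ F, ((n - n₀ : ℕ) : ℝ) ≤ TR K D s L M' r := by
    intro n hn
    have hle := hmin n hn
    rcases hle.eq_or_lt with heq | hlt
    · rw [heq, Nat.sub_self]
      simpa using hTR
    · rw [Nat.cast_sub hle]
      exact near3 h hM' hlt (by rw [hF3 n hn, hF3 n₀ hn₀F]) hr0 (hF n hn)
  have hcard : F.card ≤ ⌊TR K D s L M' r / Q⌋₊ + 1 := by
    rw [← card_range (⌊TR K D s L M' r / Q⌋₊ + 1)]
    refine card_le_card_of_injOn (fun n => (n - n₀) / Q) ?_ ?_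
    · intro n hn
      rw [mem_coe, mem_range, Nat.lt_succ_iff]
      apply Nat.le_floor
      have h1 := hnear n hn
      have hQR : (0 : ℝ) < Q := by exact_mod_cast hQ0
      rw [le_div_iff₀ hQR]
      have h2 : (n - n₀) / Q * Q ≤ n - n₀ := Nat.div_mul_le_self _ _
      have h3 : (((n - n₀) / Q : ℕ) : ℝ) * Q ≤ ((n - n₀ : ℕ) : ℝ) := by exact_mod_cast h2
      exact h3.trans h1
    · intro n hn n' hn' heq
      have a1 := Nat.div_mul_cancel (hdvd n hn)
      have a2 := Nat.div_mul_cancel (hdvd n' hn')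
      have heq' : (n - n₀) / Q = (n' - n₀) / Q := heq
      rw [heq'] at a1
      have := hmin n hn
      have := hmin n' hn'
      omega
  have hprod : ∏ i, q i ≤ Q * (L + 6) ^ (r ^ 2) := by
    have := prod_le_lcm (univ : Finset (Fin r)) q (L + 6) (by omega) (fun i _ => hq1 i)
      (fun i _ j _ hij => hr0.2.2.2.2.2.1 i j hij)
    rw [← hQ, card_univ, Fintype.card_fin] at this
    exact this
  have hprodR : (∏ i, (q i : ℝ)) ≤ Q * ((L : ℝ) + 6) ^ (r ^ 2) := by exact_mod_cast hprod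
  have hpp : 0 < ∏ i, (q i : ℝ) := prod_pos fun i _ => by
    have := hq1 i
    positivity
  have hQR : (0 : ℝ) < Q := by exact_mod_cast hQ0
  calc (F.card : ℝ) ≤ ⌊TR K D s L M' r / Q⌋₊ + 1 := by exact_mod_cast hcard
    _ ≤ TR K D s L M' r / Q + 1 := by
      have := Nat.floor_le (show 0 ≤ TR K D s L M' r / Q by positivity)
      linarith
    _ ≤ TR K D s L M' r * ((L : ℝ) + 6) ^ (r ^ 2) * ∏ i, (1 / (q i : ℝ)) + 1 := by
      have e1 : ∏ i, (1 / (q i : ℝ)) = 1 / ∏ i, (q i : ℝ) := by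
        rw [prod_div_distrib]
        simp
      rw [e1, div_eq_mul_one_div, mul_assoc]
      gcongr
      rw [mul_one_div, div_le_div_iff₀ hQR hpp]
      linarith
    _ = _ := by ring

end Pool.Agent.K9h6.GR
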