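import Pool.Agent.K9h6.GR.Rel

/-!
# The gcd recursion for prime triples, beyond powers of the logarithm: steps with the same data
-/

set_option autoImplicit false

namespace Pool.Agent.K9h6.GR

open Finset Pool.Agent.R701.GD

variable {K D s N f : ℕ} {A : ℕ → ℕ}

/-- the relation of a pair of near steps `n`, `n + h`, with quotients `μ`, `μ'`, and the `r` steps `n + p i` in between
with quotients `q i` -/
def Rel3 (K D s f : ℕ) (A : ℕ → ℕ) (L M' r : ℕ) (n h μ μ' : ℕ) (m : ℤ) (p q : Fin r → ℕ) : Prop :=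
  n ∈ W D s f ∧ 1 ≤ μ ∧ 1 ≤ μ' ∧ |m| ≤ (C1 K D L : ℤ) * (μ * μ') ∧
  (∀ i, p i ≤ L ∧ 1 ≤ q i ∧ q i ∣ v (n + p i)) ∧
  (∀ i j, i ≠ j → Nat.gcd (q i) (q j) ≤ L + 6) ∧
  v (n + h) ≠ v n ∧
  ∃ S₂ : ℕ, M' * S₂ ≤ L * s ∧
    ((v (n + h) : ℝ) - v n) * (μ * μ') * (A n : ℝ) = (m - μ') * (v n : ℝ) ^ 2 +
      (m * ((v (n + h) : ℝ) - v n) - (μ * μ') * ((∑ i, (v (n + p i) : ℝ) / q i) + S₂)) * (v n : ℝ)

/-- the length of the interval of the steps with the same data -/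
noncomputable def TR (K D s L M' r : ℕ) : ℝ :=
  128 * K ^ 3 * D * (C1 K D L + r * (L + 6)) + 128 * K ^ 3 * D * L * s / M'

lemma v_shift {n₁ n₂ : ℕ} (h3 : n₁ % 3 = n₂ % 3) (p : ℕ) : v (n₁ + p) + n₂ = v (n₂ + p) + n₁ := by
  have : (n₁ + p) % 3 = (n₂ + p) % 3 := by omega
  unfold v b
  rw [this]
  split_ifs <;> omega

lemma near3 (h : Dat K D s N f A) {L M' r : ℕ} (hM' : 1 ≤ M') {n₁ n₂ : ℕ} (hlt : n₁ < n₂)
    (h3 : n₁ % 3 = n₂ % 3) {t μ μ' : ℕ} {m : ℤ} {p q : Fin r → ℕ}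
    (r1 : Rel3 K D s f A L M' r n₁ t μ μ' m p q) (r2 : Rel3 K D s f A L M' r n₂ t μ μ' m p q) :
    (n₂ : ℝ) - n₁ ≤ TR K D s L M' r := by
  obtain ⟨w1, hμ, hμ', hm, hpq, -, hne, S₁, hS₁, E1⟩ := r1
  obtain ⟨w2, -, -, -, -, -, -, S₂, hS₂, E2⟩ := r2
  rw [mem_W] at w1 w2
  obtain ⟨⟨h12, h1f⟩, h1s⟩ := w1
  obtain ⟨⟨h22, h2f⟩, h2s⟩ := w2
  have h1A := h.half n₁ h12 h1f
  have hD := h.D2
  have hK := h.K1
  have hs := h.s1
  have a2 := le_v n₂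
  have a3 := le_v n₁
  have hN1 := h.N1
  have hAle : A n₂ ≤ A n₁ := h.anti h12 hlt.le (by omega)
  have z1 := h.v_le_Ks h1f
  have z2 := h.v_le_Ks h2f
  have sh0 := v_shift h3 0
  rw [Nat.add_zero, Nat.add_zero] at sh0
  -- real numbers
  have hsR : (0 : ℝ) < s := by exact_mod_cast (show 0 < s by omega)
  have hKR : (1 : ℝ) ≤ K := by exact_mod_cast hK
  have hM'R : (1 : ℝ) ≤ M' := by exact_mod_cast hM'
  have hDR : (1 : ℝ) ≤ D := by exact_mod_cast (show 1 ≤ D by omega)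
  have V1s : (s : ℝ) ≤ 2 * D * v n₁ := by
    exact_mod_cast h1s.trans (Nat.mul_le_mul_left _ a3)
  have V2s : (s : ℝ) ≤ 2 * D * v n₂ := by
    exact_mod_cast h2s.trans (Nat.mul_le_mul_left _ a2)
  have V1p : (0 : ℝ) < v n₁ := by exact_mod_cast (show 0 < v n₁ by omega)
  have V2p : (0 : ℝ) < v n₂ := by exact_mod_cast (show 0 < v n₂ by omega)
  have V1u : (v n₁ : ℝ) ≤ 2 * (K * s) := by exact_mod_cast z1
  have V2u : (v n₂ : ℝ) ≤ 2 * (K * s) := by exact_mod_cast z2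
  have shR : (v n₁ : ℝ) + n₂ = v n₂ + n₁ := by exact_mod_cast sh0
  have hltR : (n₁ : ℝ) < n₂ := by exact_mod_cast hlt
  have V12 : (v n₁ : ℝ) < v n₂ := by linarith
  have hμR : (1 : ℝ) ≤ μ := by exact_mod_cast hμ
  have hμR' : (1 : ℝ) ≤ μ' := by exact_mod_cast hμ'
  have hmR : |(m : ℝ)| ≤ C1 K D L * (μ * μ') := by exact_mod_cast hm
  -- the common data
  obtain ⟨e, he⟩ : ∃ e : ℝ, e = (v (n₁ + t) : ℝ) - v n₁ := ⟨_, rfl⟩
  have he2 : (v (n₂ + t) : ℝ) - v n₂ = e := by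
    have : (v (n₁ + t) : ℝ) + n₂ = v (n₂ + t) + n₁ := by exact_mod_cast v_shift h3 t
    rw [he]
    linarith
  have he1 : 1 ≤ |e| := by
    have e0 : ((v (n₁ + t) : ℤ) - v n₁) ≠ 0 := by
      intro h0
      apply hne
      have : (v (n₁ + t) : ℤ) = v n₁ := by linarith
      exact_mod_cast this
    have := Int.one_le_abs e0
    rw [he]
    exact_mod_cast this
  obtain ⟨δ, hδ⟩ : ∃ δ : Fin r → ℝ, δ = fun i => (v (n₁ + p i) : ℝ) - v n₁ := ⟨_, rfl⟩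
  have hδ1 : ∀ i, (v (n₁ + p i) : ℝ) = v n₁ + δ i := fun i => by rw [hδ]; ring
  have hδ2 : ∀ i, (v (n₂ + p i) : ℝ) = v n₂ + δ i := fun i => by
    have : (v (n₁ + p i) : ℝ) + n₂ = v (n₂ + p i) + n₁ := by exact_mod_cast v_shift h3 (p i)
    rw [hδ]
    simp only
    linarith
  have hδb : ∀ i, |δ i| ≤ (L : ℝ) + 6 := by
    intro i
    have b1 := v_le n₁
    have b2 := v_le (n₁ + p i)
    have b3 := le_v n₁
    have b4 := le_v (n₁ + p i)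
    have b5 := (hpq i).1
    have : |(v (n₁ + p i) : ℤ) - v n₁| ≤ (L : ℤ) + 6 := by
      rw [abs_le]
      constructor <;> omega
    rw [hδ]
    show |(v (n₁ + p i) : ℝ) - v n₁| ≤ (L : ℝ) + 6
    exact_mod_cast this
  obtain ⟨σ, hσ⟩ : ∃ σ : ℝ, σ = ∑ i, 1 / (q i : ℝ) := ⟨_, rfl⟩
  obtain ⟨ρ, hρ⟩ : ∃ ρ : ℝ, ρ = ∑ i, δ i / (q i : ℝ) := ⟨_, rfl⟩
  have hρb : |ρ| ≤ r * ((L : ℝ) + 6) := by
    rw [hρ]
    refine (abs_sum_le_sum_abs _ _).trans ?_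
    have : ∀ i ∈ (univ : Finset (Fin r)), |δ i / (q i : ℝ)| ≤ (L : ℝ) + 6 := by
      intro i _
      have hq1 : (1 : ℝ) ≤ q i := by exact_mod_cast (hpq i).2.1
      rw [abs_div, abs_of_pos (a := (q i : ℝ)) (by linarith)]
      exact (div_le_self (abs_nonneg _) hq1).trans (hδb i)
    refine (sum_le_card_nsmul _ _ _ this).trans ?_
    rw [card_univ, Fintype.card_fin, nsmul_eq_mul]
  have sum1 : ∑ i, (v (n₁ + p i) : ℝ) / q i = v n₁ * σ + ρ := by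
    rw [hσ, hρ, mul_sum, ← sum_add_distrib]
    refine sum_congr rfl fun i _ => ?_
    rw [hδ1]
    ring
  have sum2 : ∑ i, (v (n₂ + p i) : ℝ) / q i = v n₂ * σ + ρ := by
    rw [hσ, hρ, mul_sum, ← sum_add_distrib]
    refine sum_congr rfl fun i _ => ?_
    rw [hδ2]
    ring
  rw [sum1, ← he] at E1
  rw [sum2, he2] at E2
  obtain ⟨P, hP⟩ : ∃ P : ℝ, P = μ * μ' := ⟨_, rfl⟩
  rw [← hP] at E1 E2 hmR
  have hP1 : 1 ≤ P := by rw [hP]; nlinarith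
  have hP0 : 0 < P := by linarith
  have hC0 : (0 : ℝ) ≤ C1 K D L := Nat.cast_nonneg _
  have hd : |(m : ℝ) * e - P * ρ| ≤ (C1 K D L + r * ((L : ℝ) + 6)) * P * |e| := by
    calc |(m : ℝ) * e - P * ρ| ≤ |(m : ℝ) * e| + |P * ρ| := abs_sub _ _
      _ = |(m : ℝ)| * |e| + P * |ρ| := by rw [abs_mul, abs_mul, abs_of_pos hP0]
      _ ≤ (C1 K D L * P) * |e| + P * (r * ((L : ℝ) + 6)) := by gcongr
      _ ≤ (C1 K D L * P) * |e| + P * (r * ((L : ℝ) + 6)) * |e| := by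
          have : 0 ≤ P * (r * ((L : ℝ) + 6)) := by positivity
          nlinarith
      _ = _ := by ring
  have i1 : 1 / (v n₁ : ℝ) ≤ 2 * D / s := by
    rw [div_le_div_iff₀ V1p hsR]; linarith
  have i2 : 1 / (v n₂ : ℝ) ≤ 2 * D / s := by
    rw [div_le_div_iff₀ V2p hsR]; linarith
  have sb : ∀ (S : ℕ) (V : ℝ), M' * S ≤ L * s → (s : ℝ) ≤ 2 * D * V → 0 < V →
      (S : ℝ) / V ≤ 2 * D * L / M' := by
    intro S V hS hV hVp
    have hSR : (M' : ℝ) * S ≤ L * s := by exact_mod_cast hS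
    rw [div_le_div_iff₀ hVp (by linarith)]
    have : (L : ℝ) * s ≤ L * (2 * D * V) := by
      have : (0 : ℝ) ≤ L := Nat.cast_nonneg _
      gcongr
    linarith
  have s1 := sb S₁ (v n₁) hS₁ V1s V1p
  have s2 := sb S₂ (v n₂) hS₂ V2s V2p
  have U := upper3 e P (m - μ' - P * σ) (m * e - P * ρ) (v n₁) (v n₂) S₁ S₂ (A n₁) (A n₂)
    (2 * D / s) (2 * D * L / M') (C1 K D L + r * ((L : ℝ) + 6)) V1p V2p hP0 he1 (by positivity)
    (by rw [E1]; ring) (by rw [E2]; ring) hd i1 i2 s1 s2 (by positivity) (by positivity)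
  have hAR : (A n₂ : ℝ) ≤ A n₁ := by exact_mod_cast hAle
  have hA1 : (s : ℝ) ^ 2 / 8 ≤ A n₁ := by
    have : s * s ≤ 2 * A n₁ := hN1.trans h1A
    have : (s : ℝ) * s ≤ 2 * A n₁ := by exact_mod_cast this
    nlinarith
  have D' := lowerD s K (v n₁) (v n₂) (A n₁) (A n₂) hsR hKR V1p V12 V1u V2u hAR hA1
  have G4 := D'.trans U
  rw [div_le_iff₀ (by positivity)] at G4
  have e5 : ((C1 K D L + r * ((L : ℝ) + 6)) * (2 * D / s) + 2 * D * L / M') * (64 * K ^ 3 * s)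
      = TR K D s L M' r := by
    unfold TR
    field_simp
    ring
  rw [e5] at G4
  linarith

end Pool.Agent.K9h6.GR
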