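import Pool.Agent.R701.GD.Rel
import Pool.Agent.K9h6.GR.Comb

/-!
# The gcd recursion for prime triples, beyond powers of the logarithm: relations of near steps

`Dat`, `W`, `G`, `g`, `v` are those of the starting library `Pool.Agent.R701.GD`.
-/

set_option autoImplicit false

namespace Pool.Agent.K9h6.GR

open Finset Pool.Agent.R701.GD

variable {K D s N f : ℕ} {A : ℕ → ℕ}

/-- the constant in the bound for `m` -/
def C1 (K D L : ℕ) : ℕ := 24 * K ^ 2 * D ^ 2 * (L + 6)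

lemma mu_pos {n μ : ℕ} (hn : 1 ≤ n) (h : v n = g A n * μ) : 1 ≤ μ := by
  rcases Nat.eq_zero_or_pos μ with h0 | h0
  · rw [h0, mul_zero] at h
    have := le_v n
    omega
  · exact h0

/-- the relation of two near steps of the window -/
lemma rel (h : Dat K D s N f A) {L n n' : ℕ} (hn : n ∈ W D s f) (hn' : n' ∈ W D s f) (h1 : n < n')
    (h2 : n' ≤ n + L) {μ μ' : ℕ} (hμ : v n = g A n * μ) (hμ' : v n' = g A n' * μ') :
    ∃ m : ℤ, |m| ≤ (C1 K D L : ℤ) * (μ * μ') ∧
      ((v n' : ℤ) - v n) * μ * μ' * (A n : ℤ) = (m - μ') * (v n : ℤ) ^ 2 +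
        (m * ((v n' : ℤ) - v n) - μ * μ' * (∑ k ∈ Ico (n + 1) n', g A k : ℕ)) * (v n : ℤ) := by
  rw [mem_W] at hn hn'
  obtain ⟨⟨hn2, hnf⟩, hns⟩ := hn
  obtain ⟨⟨hn2', hnf'⟩, hns'⟩ := hn'
  have hK := h.K1
  have hD := h.D2
  have hs := h.s1
  obtain ⟨α, hα⟩ := g_dvd_A (A := A) n
  obtain ⟨α', hα'⟩ := g_dvd_A (A := A) n'
  have hg := h.g_pos (n := n) (by omega)
  have hg' := h.g_pos (n := n') (by omega)
  set S := ∑ k ∈ Ico (n + 1) n', g A k with hS
  have hstep := h.step n hn2 hnf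
  have htele := h.tele (n + 1) n' (by omega) (by omega) (by omega)
  rw [← hS] at htele
  have hv := h.v_le_Ks hnf
  have hv' := h.v_le_Ks hnf'
  have hvn := le_v n
  have hvn' := le_v n'
  have hμpos : 1 ≤ μ := mu_pos (by omega) hμ
  have hμpos' : 1 ≤ μ' := mu_pos (by omega) hμ'
  -- `s` is bounded by both products
  have hsb : s ≤ 2 * D * (g A n * μ) := by
    rw [← hμ]
    exact hns.trans (Nat.mul_le_mul_left _ hvn)
  have hsb' : s ≤ 2 * D * (g A n' * μ') := by
    rw [← hμ']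
    exact hns'.trans (Nat.mul_le_mul_left _ hvn')
  -- bound for `g + S`
  have hSg : g A n + S ≤ L * (2 * (K * s)) := by
    have e1 : g A n + S = ∑ k ∈ Ico n n', g A k := by
      rw [hS, ← sum_eq_sum_Ico_succ_bot h1]
    rw [e1]
    have e2 : ∑ k ∈ Ico n n', g A k ≤ (Ico n n').card • (2 * (K * s)) := by
      apply sum_le_card_nsmul
      intro k hk
      rw [mem_Ico] at hk
      exact (g_le_v k (by omega)).trans (h.v_le_Ks (by omega))
    refine e2.trans ?_
    rw [Nat.card_Ico, smul_eq_mul]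
    exact Nat.mul_le_mul_right _ (by omega)
  -- η
  set η : ℤ := (v n' : ℤ) - v n with hη
  have hηb : |η| ≤ (L : ℤ) + 6 := by
    have a1 := v_le n
    have a2 := v_le n'
    rw [abs_le]
    constructor <;> omega
  -- m
  set m : ℤ := (μ' : ℤ) * α - μ * α' with hm
  have e1 : (A n' : ℤ) = A n - g A n - S := by
    have : A n' + S + g A n = A n := by omega
    have : (A n' : ℤ) + S + g A n = A n := by exact_mod_cast this
    linarith
  have c1 : (v n : ℤ) = g A n * μ := by exact_mod_cast hμ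
  have c2 : (v n' : ℤ) = g A n' * μ' := by exact_mod_cast hμ'
  have c3 : (A n : ℤ) = g A n * α := by exact_mod_cast hα
  have c4 : (A n' : ℤ) = g A n' * α' := by exact_mod_cast hα'
  have key : (g A n : ℤ) * g A n' * m = (g A n + S) * v n + η * A n := by
    have : (g A n : ℤ) * g A n' * m = A n * v n' - A n' * v n := by
      rw [hm]
      calc (g A n : ℤ) * g A n' * (μ' * α - μ * α')
          = (g A n * α) * (g A n' * μ') - (g A n' * α') * (g A n * μ) := by ring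
        _ = A n * v n' - A n' * v n := by rw [← c1, ← c2, ← c3, ← c4]
    rw [this, e1, hη]
    ring
  -- bound for m
  have hmb : |m| ≤ (C1 K D L : ℤ) * (μ * μ') := by
    have hgZ : (0 : ℤ) < g A n := by exact_mod_cast hg
    have hgZ' : (0 : ℤ) < g A n' := by exact_mod_cast hg'
    have hAn : A n ≤ N := h.le_N hn2 (by omega)
    have hN2 := h.N2
    have p1 : (g A n + S) * v n ≤ (16 * K ^ 2 * D ^ 2 * L * (μ * μ')) * (g A n * g A n') := by
      calc (g A n + S) * v n ≤ (L * (2 * (K * s))) * (2 * (K * s)) :=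
            Nat.mul_le_mul hSg hv
        _ = (4 * K ^ 2 * L) * (s * s) := by ring
        _ ≤ (4 * K ^ 2 * L) * ((2 * D * (g A n * μ)) * (2 * D * (g A n' * μ'))) := by gcongr
        _ = _ := by ring
    have p2 : A n ≤ 8 * D ^ 2 * (μ * μ') * (g A n * g A n') := by
      calc A n ≤ 2 * (s * s) := hAn.trans hN2
        _ ≤ 2 * ((2 * D * (g A n * μ)) * (2 * D * (g A n' * μ'))) := by gcongr
        _ = _ := by ring
    have q1 : ((g A n : ℤ) + S) * v n ≤ (16 * K ^ 2 * D ^ 2 * L * (μ * μ')) * (g A n * g A n') := by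
      exact_mod_cast p1
    have q2 : (A n : ℤ) ≤ 8 * D ^ 2 * (μ * μ') * (g A n * g A n') := by exact_mod_cast p2
    have q3 : |(g A n : ℤ) * g A n' * m| ≤ (g A n * g A n') * ((C1 K D L : ℤ) * (μ * μ')) := by
      rw [key]
      calc |((g A n : ℤ) + S) * v n + η * A n| ≤ |((g A n : ℤ) + S) * v n| + |η * A n| :=
            abs_add_le _ _
        _ = ((g A n : ℤ) + S) * v n + |η| * A n := by
            rw [abs_of_nonneg (a := ((g A n : ℤ) + S) * v n) (by positivity), abs_mul,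
              abs_of_nonneg (a := (A n : ℤ)) (by positivity)]
        _ ≤ (16 * K ^ 2 * D ^ 2 * L * (μ * μ')) * (g A n * g A n')
            + (L + 6) * (8 * D ^ 2 * (μ * μ') * (g A n * g A n')) := by
            gcongr
        _ ≤ (16 * K ^ 2 * D ^ 2 * (L + 6) * (μ * μ')) * (g A n * g A n')
            + (L + 6) * (8 * (K ^ 2 * D ^ 2) * (μ * μ') * (g A n * g A n')) := by
            have k1 : (1 : ℤ) ≤ (K : ℤ) ^ 2 := one_le_pow₀ (by exact_mod_cast hK)
            have k2 : (D : ℤ) ^ 2 ≤ (K : ℤ) ^ 2 * (D : ℤ) ^ 2 :=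
              le_mul_of_one_le_left (by positivity) k1
            gcongr
            omega
        _ = (g A n * g A n') * ((C1 K D L : ℤ) * (μ * μ')) := by
            unfold C1
            push_cast
            ring
    rw [abs_mul, abs_of_pos (a := (g A n : ℤ) * g A n') (by positivity)] at q3
    exact le_of_mul_le_mul_left q3 (by positivity)
  refine ⟨m, hmb, ?_⟩
  -- final relation
  have t1 : (v n' : ℤ) = v n + η := by rw [hη]; ring
  have t2 : (μ : ℤ) * μ' * (g A n * g A n' * m) = v n * v n' * m := by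
    rw [c1, c2]; ring
  rw [key] at t2
  have t3 : (μ : ℤ) * μ' * ((g A n + S) * v n + η * A n)
      = μ' * (v n : ℤ) ^ 2 + μ * μ' * S * v n + η * μ * μ' * A n := by
    calc (μ : ℤ) * μ' * ((g A n + S) * v n + η * A n)
        = μ' * (g A n * μ) * v n + μ * μ' * S * v n + η * μ * μ' * A n := by ring
      _ = μ' * (v n : ℤ) ^ 2 + μ * μ' * S * v n + η * μ * μ' * A n := by rw [← c1]; ring
  rw [t3, t1] at t2
  linarith

/-- two near steps with small quotients have different second arguments -/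
lemma v_ne_of_small (h : Dat K D s N f A) {L n n' : ℕ} (hn : n ∈ W D s f) (hn' : n' ∈ W D s f)
    (h1 : n < n') (h2 : n' ≤ n + L) {μ μ' : ℕ} (hμ : v n = g A n * μ) (hμ' : v n' = g A n' * μ')
    (hs : 10 * D * (μ * μ') < s) : v n' ≠ v n := by
  intro heq
  obtain ⟨m, -, hrel⟩ := rel h hn hn' h1 h2 hμ hμ'
  have hn0 := hn
  rw [mem_W] at hn0
  -- `n' = n + 2`
  have hn2 : n' = n + 2 ∧ v (n + 1) = v n + 5 := by
    unfold v b at heq ⊢
    split_ifs at heq ⊢ <;> omega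
  obtain ⟨rfl, h5⟩ := hn2
  have hS : ∑ k ∈ Ico (n + 1) (n + 2), g A k = g A (n + 1) := by
    rw [sum_Ico_succ_top (by omega)]
    simp
  rw [hS, heq] at hrel
  have hvpos : (0 : ℤ) < v n := by
    have := le_v n
    exact_mod_cast (show 0 < v n by omega)
  have r1 : (v n : ℤ) * ((m - μ') * v n) = (v n : ℤ) * (μ * μ' * (g A (n + 1) : ℕ)) := by
    linear_combination -hrel
  have r2 : (m - μ') * (v n : ℤ) = μ * μ' * (g A (n + 1) : ℕ) := mul_left_cancel₀ hvpos.ne' r1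
  have hdvd : v n ∣ μ * μ' * g A (n + 1) := by
    have : (v n : ℤ) ∣ μ * μ' * (g A (n + 1) : ℕ) := ⟨m - μ', by rw [← r2]; ring⟩
    exact_mod_cast this
  have hdvd2 : v n ∣ μ * μ' * v (n + 1) := hdvd.trans (Nat.mul_dvd_mul_left _ (g_dvd_v (n + 1)))
  rw [h5, mul_add] at hdvd2
  have hdvd3 : v n ∣ μ * μ' * 5 := (Nat.dvd_add_right (Dvd.intro_left _ rfl)).1 hdvd2
  have hpos : 0 < μ * μ' := by
    have a1 := mu_pos (A := A) (by omega : 1 ≤ n) hμ
    have a2 := mu_pos (A := A) (by omega : 1 ≤ n + 2) hμ'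
    positivity
  have hle := Nat.le_of_dvd (by positivity) hdvd3
  have h6 : s ≤ 10 * D * (μ * μ') := by
    calc s ≤ 2 * D * n := hn0.2
      _ ≤ 2 * D * v n := Nat.mul_le_mul_left _ (le_v n)
      _ ≤ 2 * D * (μ * μ' * 5) := Nat.mul_le_mul_left _ hle
      _ = 10 * D * (μ * μ') := by ring
  omega

/-- the quotients of two near steps have a small gcd -/
lemma gcd_le (h : Dat K D s N f A) {L n n' : ℕ} (hn : n ∈ W D s f) (hn' : n' ∈ W D s f)
    (h1 : n < n') (h2 : n' ≤ n + L) {μ μ' : ℕ} (hμ : v n = g A n * μ) (hμ' : v n' = g A n' * μ')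
    (hs : 10 * D * (μ * μ') < s) : Nat.gcd μ μ' ≤ L + 6 := by
  have hne := v_ne_of_small h hn hn' h1 h2 hμ hμ' hs
  have d1 : (Nat.gcd μ μ' : ℤ) ∣ (v n : ℤ) := by
    exact_mod_cast (Nat.gcd_dvd_left μ μ').trans (Dvd.intro_left _ hμ.symm)
  have d2 : (Nat.gcd μ μ' : ℤ) ∣ (v n' : ℤ) := by
    exact_mod_cast (Nat.gcd_dvd_right μ μ').trans (Dvd.intro_left _ hμ'.symm)
  have d3 : (Nat.gcd μ μ' : ℤ) ∣ (v n' : ℤ) - v n := dvd_sub d2 d1
  have hne' : (v n' : ℤ) - v n ≠ 0 := by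
    intro h0
    apply hne
    have : (v n' : ℤ) = v n := by linarith
    exact_mod_cast this
  have h6 : (Nat.gcd μ μ' : ℤ) ≤ |(v n' : ℤ) - v n| :=
    Int.le_of_dvd (abs_pos.2 hne') ((dvd_abs _ _).2 d3)
  have h7 : |(v n' : ℤ) - v n| ≤ (L : ℤ) + 6 := by
    have a1 := v_le n
    have a2 := v_le n'
    have a3 := le_v n
    have a4 := le_v n'
    rw [abs_le]
    constructor <;> omega
  exact_mod_cast h6.trans h7

/-- the quotient of a step of `G M` -/
lemma mu_le (h : Dat K D s N f A) {M n μ : ℕ} (hn : n ∈ G D s f A M) (hμ : v n = g A n * μ) :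
    μ ≤ 2 * K * M := by
  rw [mem_G, mem_W] at hn
  have hv := h.v_le_Ks hn.1.1.2
  have hs := h.s1
  have : s * μ ≤ s * (2 * K * M) := by
    calc s * μ ≤ (M * g A n) * μ := Nat.mul_le_mul_right _ hn.2
      _ = M * (g A n * μ) := by ring
      _ = M * v n := by rw [hμ]
      _ ≤ M * (2 * (K * s)) := Nat.mul_le_mul_left _ hv
      _ = s * (2 * K * M) := by ring
  exact Nat.le_of_mul_le_mul_left this (by omega)

lemma upper3 (e P c d V₁ V₂ S₁ S₂ a₁ a₂ t u B : ℝ) (V1p : 0 < V₁) (V2p : 0 < V₂) (hP : 0 < P)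
    (he : 1 ≤ |e|) (hB : 0 ≤ B)
    (E1 : e * P * a₁ = c * V₁ ^ 2 + (d - P * S₁) * V₁)
    (E2 : e * P * a₂ = c * V₂ ^ 2 + (d - P * S₂) * V₂)
    (hd : |d| ≤ B * P * |e|)
    (i1 : 1 / V₁ ≤ t) (i2 : 1 / V₂ ≤ t)
    (s1 : S₁ / V₁ ≤ u) (s2 : S₂ / V₂ ≤ u) (s1p : 0 ≤ S₁ / V₁) (s2p : 0 ≤ S₂ / V₂) :
    a₁ / V₁ ^ 2 - a₂ / V₂ ^ 2 ≤ B * t + u := by
  have F1 : e * P * (a₁ / V₁ ^ 2) = c + (d - P * S₁) / V₁ := by
    have : e * P * (a₁ / V₁ ^ 2) = (e * P * a₁) / V₁ ^ 2 := by ring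
    rw [this, E1]
    field_simp
  have F2 : e * P * (a₂ / V₂ ^ 2) = c + (d - P * S₂) / V₂ := by
    have : e * P * (a₂ / V₂ ^ 2) = (e * P * a₂) / V₂ ^ 2 := by ring
    rw [this, E2]
    field_simp
  set Δ : ℝ := a₁ / V₁ ^ 2 - a₂ / V₂ ^ 2 with hΔ
  have F3 : e * P * Δ = d * (1 / V₁ - 1 / V₂) - P * (S₁ / V₁ - S₂ / V₂) := by
    rw [hΔ, mul_sub, F1, F2]
    ring
  have i1p : 0 < 1 / V₁ := by positivity
  have i2p : 0 < 1 / V₂ := by positivity
  have ht : 0 ≤ t := i1p.le.trans i1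
  have hu : 0 ≤ u := s1p.trans s1
  have d1 : |1 / V₁ - 1 / V₂| ≤ t := by rw [abs_le]; constructor <;> linarith
  have d2 : |S₁ / V₁ - S₂ / V₂| ≤ u := by rw [abs_le]; constructor <;> linarith
  have hpos : 0 < |e| * P := by
    have : 0 < |e| := by linarith
    positivity
  have G1 : |e| * P * |Δ| ≤ |e| * P * (B * t + u) := by
    have l1 : |e * P * Δ| = |e| * P * |Δ| := by
      rw [abs_mul, abs_mul, abs_of_pos hP]
    rw [← l1, F3]
    calc |d * (1 / V₁ - 1 / V₂) - P * (S₁ / V₁ - S₂ / V₂)|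
        ≤ |d * (1 / V₁ - 1 / V₂)| + |P * (S₁ / V₁ - S₂ / V₂)| := abs_sub _ _
      _ = |d| * |1 / V₁ - 1 / V₂| + P * |S₁ / V₁ - S₂ / V₂| := by
          rw [abs_mul, abs_mul, abs_of_pos hP]
      _ ≤ (B * P * |e|) * t + P * u := by gcongr
      _ ≤ (B * P * |e|) * t + |e| * P * u := by
          have z2 : P * u ≤ |e| * P * u := by
            have h0 : (0 : ℝ) ≤ P * u := by positivity
            calc P * u = 1 * (P * u) := by ring
              _ ≤ |e| * (P * u) := by gcongr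
              _ = _ := by ring
          linarith
      _ = _ := by ring
  exact (le_abs_self _).trans (le_of_mul_le_mul_left G1 hpos)

end Pool.Agent.K9h6.GR
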