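import Pool.Agent.K9h6.GR.Count

/-!
# The gcd recursion for prime triples, beyond powers of the logarithm: the number of rare steps, II
-/

set_option autoImplicit false

namespace Pool.Agent.K9h6.GR

open Finset Pool.Agent.R701.GD

variable {K D s N f : ℕ} {A : ℕ → ℕ}

/-- the number of the values of the first part of the data -/
def NC (K D L M : ℕ) : ℕ :=
  3 * (L * ((2 * K * M) * ((2 * K * M) * (2 * (C1 K D L * (2 * K * M) ^ 2) + 1))))

lemma card_Rr (h : Dat K D s N f A) {L M M' r : ℕ} (hM' : 1 ≤ M') (hMM : M ≤ M')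
    (hs : 10 * D * (2 * K * M') ^ 2 < s) :
    ((Rr D s f A L M M' r).card : ℝ) ≤ NC K D L M * ((L : ℝ) + 1) ^ r *
      ((2 * K * M' : ℕ) ^ r + TR K D s L M' r * ((L : ℝ) + 6) ^ (r ^ 2) *
        (∑ x ∈ Icc 1 (2 * K * M'), (1 / (x : ℝ))) ^ r) := by
  classical
  have hex := fun n (hn : n ∈ Rr D s f A L M M' r) => exists_data h hMM hs hn
  choose! t μ μ' m p q hR ht1 ht2 hμ hμ' hq using hex
  obtain ⟨Z, hZ⟩ : ∃ Z : ℕ, Z = C1 K D L * (2 * K * M) ^ 2 := ⟨_, rfl⟩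
  set coarse : Finset (ℕ × ℕ × ℕ × ℕ × ℤ) := range 3 ×ˢ Icc 1 L ×ˢ Icc 1 (2 * K * M) ×ˢ
    Icc 1 (2 * K * M) ×ˢ Icc (-(Z : ℤ)) (Z : ℤ) with hcoarse
  set P1 : Finset (Fin r → ℕ) := Fintype.piFinset (fun _ => range (L + 1)) with hP1
  set P2 : Finset (Fin r → ℕ) := Fintype.piFinset (fun _ => Icc 1 (2 * K * M')) with hP2
  have hmaps : ∀ n ∈ Rr D s f A L M M' r,
      ((n % 3, t n, μ n, μ' n, m n), p n, q n) ∈ coarse ×ˢ P1 ×ˢ P2 := by
    intro n hn
    obtain ⟨-, b1, b2, b3, b4, -⟩ := hR n hn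
    rw [hcoarse, hP1, hP2]
    simp only [mem_product, mem_Icc, mem_range, Fintype.mem_piFinset]
    have hmZ : |m n| ≤ (Z : ℤ) := by
      refine b3.trans ?_
      rw [hZ]
      have c1 : μ n * μ' n ≤ (2 * K * M) ^ 2 := by
        rw [sq]
        exact Nat.mul_le_mul (hμ n hn) (hμ' n hn)
      have c2 : C1 K D L * (μ n * μ' n) ≤ C1 K D L * (2 * K * M) ^ 2 := Nat.mul_le_mul_left _ c1
      exact_mod_cast c2
    rw [abs_le] at hmZ
    refine ⟨⟨Nat.mod_lt _ (by norm_num), ⟨ht1 n hn, ht2 n hn⟩, ⟨b1, hμ n hn⟩, ⟨b2, hμ' n hn⟩, hmZ⟩,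
      fun i => ?_, fun i => ⟨(b4 i).2.1, hq n hn i⟩⟩
    have := (b4 i).1
    omega
  have hcard := card_eq_sum_card_fiberwise (f := fun n => ((n % 3, t n, μ n, μ' n, m n), p n, q n))
    (s := Rr D s f A L M M' r) (t := coarse ×ˢ P1 ×ˢ P2) hmaps
  have hfib : ∀ τ ∈ coarse ×ˢ P1 ×ˢ P2,
      ((((Rr D s f A L M M' r).filter
        (fun n => ((n % 3, t n, μ n, μ' n, m n), p n, q n) = τ)).card : ℕ) : ℝ) ≤
      1 + TR K D s L M' r * ((L : ℝ) + 6) ^ (r ^ 2) * ∏ i, (1 / (τ.2.2 i : ℝ)) := by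
    rintro ⟨⟨c, t₀, μ₀, μ₀', m₀⟩, p₀, q₀⟩ _
    refine fiber_le h hM' _ c t₀ μ₀ μ₀' m₀ p₀ q₀ ?_ ?_
    · intro n hn
      rw [mem_filter] at hn
      have := hn.2
      simp only [Prod.mk.injEq] at this
      exact this.1.1
    · intro n hn
      rw [mem_filter] at hn
      have h2 := hn.2
      simp only [Prod.mk.injEq] at h2
      obtain ⟨⟨-, e1, e2, e3, e4⟩, e5, e6⟩ := h2
      have := hR n hn.1
      rw [e1, e2, e3, e4, e5, e6] at this
      exact this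
  have hcc : coarse.card = NC K D L M := by
    rw [hcoarse, card_product, card_product, card_product, card_product, card_range, Nat.card_Icc,
      Nat.card_Icc, Int.card_Icc, NC, ← hZ]
    congr 1
    congr 1
    congr 1
    congr 1
    omega
  have hc1 : P1.card = (L + 1) ^ r := by
    rw [hP1, Fintype.card_piFinset]
    simp
  have hc2 : P2.card = (2 * K * M') ^ r := by
    rw [hP2, Fintype.card_piFinset]
    simp
  have hsum : ∑ q ∈ P2, ∏ i, (1 / (q i : ℝ)) = (∑ x ∈ Icc 1 (2 * K * M'), (1 / (x : ℝ))) ^ r := by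
    rw [hP2, ← prod_univ_sum (fun _ => Icc 1 (2 * K * M')) (fun _ x => 1 / (x : ℝ))]
    simp
  calc ((Rr D s f A L M M' r).card : ℝ)
      = ∑ τ ∈ coarse ×ˢ P1 ×ˢ P2, ((((Rr D s f A L M M' r).filter
        (fun n => ((n % 3, t n, μ n, μ' n, m n), p n, q n) = τ)).card : ℕ) : ℝ) := by
        exact_mod_cast hcard
    _ ≤ ∑ τ ∈ coarse ×ˢ P1 ×ˢ P2,
        (1 + TR K D s L M' r * ((L : ℝ) + 6) ^ (r ^ 2) * ∏ i, (1 / (τ.2.2 i : ℝ))) :=
        sum_le_sum hfib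
    _ = _ := by
        rw [sum_product]
        simp only [sum_product, sum_const, nsmul_eq_mul]
        rw [hcc, hc1, sum_add_distrib, ← mul_sum, hsum, sum_const, nsmul_eq_mul, hc2]
        push_cast
        ring

end Pool.Agent.K9h6.GR
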