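import Pool.Agent.K9h6.GR.Core
import Pool.Agent.K9h6.GR.Asy

/-!
# The gcd recursion for prime triples, beyond powers of the logarithm: the final theorem
-/

set_option autoImplicit false

namespace Pool.Agent.K9h6.GR

open Finset Filter Topology Pool.Agent.R701.GD

/-- the bound for the decrease, in terms of `x`, `y` -/
theorem top :
    ∃ c : ℝ, 0 < c ∧ ∃ N₀ : ℕ, ∀ N : ℕ, N₀ ≤ N → ∀ a : ℕ → ℤ, a 1 = (N : ℤ) - 6 →
      (∀ n : ℕ, 2 ≤ n → a n = a (n - 1) - ((Int.gcd (a (n - 1)) ((n + b n : ℕ) : ℤ) : ℕ) : ℤ)) →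
      (∀ x y : ℝ, 1 ≤ x → 2 ≤ y → x ^ 2 * y ≤ Real.exp (c * Real.log (Real.log N) ^ 2) →
        ∀ n : ℕ, 1 ≤ n → (n : ℝ) ≤ √(N : ℝ) * x → (N : ℝ) - a n ≤ N / y) ∧
      1600 ≤ Real.log (Real.log N) := by
  obtain ⟨N₀, hN₀⟩ := asy
  refine ⟨1 / 2000, by norm_num, max N₀ 10000, ?_⟩
  intro N hN a ha1 ha
  have hN1 : N₀ ≤ N := le_trans (le_max_left _ _) hN
  have hN2 : 10000 ≤ N := le_trans (le_max_right _ _) hN
  have hu : 1600 ≤ Real.log (Real.log N) := by
    obtain ⟨-, -, -, -, -, -, -, -, -, -, hu⟩ := hN₀ N hN1 0 0 (by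
      push_cast
      have := Real.exp_pos (1 / 1600 * Real.log (Real.log N) ^ 2)
      simp only [ne_eq, OfNat.ofNat_ne_zero, not_false_eq_true, zero_pow, mul_zero]
      exact this.le)
    exact hu
  refine ⟨?_, hu⟩
  intro x y hx hy2 hxy n₀ hn₀1 hn₀
  by_contra hcon
  push Not at hcon
  set s := Nat.sqrt N with hsd
  have hs : 100 ≤ s := Nat.le_sqrt.mpr (by omega)
  set K := ⌈2 * x⌉₊ with hK
  set D := ⌈y⌉₊ + 1 with hD
  have hNR : (0 : ℝ) < N := by exact_mod_cast (show 0 < N by omega)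
  have hypos : 0 < y := by linarith
  have hKpos : 1 ≤ K := Nat.ceil_pos.mpr (by linarith)
  have hD2 : 2 ≤ D := by
    have : 0 < ⌈y⌉₊ := Nat.ceil_pos.mpr hypos
    omega
  have hyD : y ≤ D := by
    have := Nat.le_ceil y
    rw [hD]
    push_cast
    linarith
  have hK3 : (K : ℝ) ≤ 3 * x := by
    have := Nat.ceil_lt_add_one (show 0 ≤ 2 * x by linarith)
    linarith
  have hD3 : (D : ℝ) ≤ 3 * y := by
    have := Nat.ceil_lt_add_one (show 0 ≤ y by linarith)
    rw [hD]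
    push_cast
    linarith
  -- the parameters
  have hpar : (K : ℝ) ^ 2 * D ≤ Real.exp (1 / 1600 * Real.log (Real.log N) ^ 2) := by
    have hK0 : (0 : ℝ) ≤ K := Nat.cast_nonneg _
    have hD0 : (0 : ℝ) ≤ D := Nat.cast_nonneg _
    have h27 : (27 : ℝ) ≤ Real.exp (1 / 8000 * Real.log (Real.log N) ^ 2) := by
      have := Real.add_one_le_exp (1 / 8000 * Real.log (Real.log N) ^ 2)
      nlinarith
    calc (K : ℝ) ^ 2 * D ≤ (3 * x) ^ 2 * (3 * y) := by gcongr
      _ = 27 * (x ^ 2 * y) := by ring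
      _ ≤ Real.exp (1 / 8000 * Real.log (Real.log N) ^ 2) *
          Real.exp (1 / 2000 * Real.log (Real.log N) ^ 2) := by gcongr
      _ = Real.exp (1 / 1600 * Real.log (Real.log N) ^ 2) := by
        rw [← Real.exp_add]
        congr 1
        ring
  obtain ⟨L, R, J, hL, hR, hRL, hJL, hlog, hgrow, hbig, -⟩ := hN₀ N hN1 K D hpar
  have hLs : L ≤ s := (Nat.le_self_pow (by positivity) L).trans hbig
  have hKD1 : 1 ≤ K ^ 2 := Nat.one_le_pow _ _ hKpos
  have hDs : D ≤ s := by nlinarith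
  have h6y : 6 * y ≤ N := by
    have h1 : s * s ≤ N := Nat.sqrt_le N
    have h2 : 6 * D ≤ s * s := Nat.mul_le_mul (by omega) hDs
    have h3 : (6 : ℝ) * D ≤ N := by exact_mod_cast h2.trans h1
    linarith
  -- the first time below
  classical
  have hex : ∃ n : ℕ, 1 ≤ n ∧ (N : ℝ) / y < (N : ℝ) - a n := ⟨n₀, hn₀1, hcon⟩
  set f := Nat.find hex with hfd
  obtain ⟨hf1, hfy⟩ := Nat.find_spec hex
  rw [← hfd] at hf1 hfy
  have hfn₀ : f ≤ n₀ := Nat.find_min' hex ⟨hn₀1, hcon⟩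
  have hbefore : ∀ k, 1 ≤ k → k < f → (N : ℝ) - a k ≤ N / y := by
    intro k hk1 hk2
    have := Nat.find_min hex (m := k) (by rw [← hfd]; exact hk2)
    push Not at this
    exact this hk1
  have hNy : (N : ℝ) / y ≤ N / 2 := by gcongr
  have hhalf : ∀ k, 1 ≤ k → k < f → (N : ℤ) ≤ 2 * a k := by
    intro k hk1 hk2
    have h1 := (hbefore k hk1 hk2).trans hNy
    have h2 : (N : ℝ) ≤ 2 * a k := by linarith
    exact_mod_cast h2
  have hf2 : 2 ≤ f := by
    by_contra hlt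
    have hf : f = 1 := by omega
    rw [hf, ha1] at hfy
    push_cast at hfy
    have : (6 : ℝ) ≤ N / y := by
      rw [le_div_iff₀ hypos]
      exact h6y
    linarith
  have haf : 0 ≤ a f := by
    have h1 := ha f hf2
    have h2 := hhalf (f - 1) (by omega) (by omega)
    have hpos : 0 < a (f - 1) := by omega
    have := Int.le_of_dvd hpos (Int.gcd_dvd_left (a := a (f - 1)) (b := ((f + b f : ℕ) : ℤ)))
    linarith
  have hnn : ∀ k, 1 ≤ k → k ≤ f → 0 ≤ a k := by
    intro k hk1 hk2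
    rcases hk2.eq_or_lt with h | h
    · rw [h]; exact haf
    · have := hhalf k hk1 h
      omega
  have hsR : (100 : ℝ) ≤ s := by exact_mod_cast hs
  have hfK : f ≤ K * s := by
    have e1 : Real.sqrt N ≤ s + 1 := Real.real_sqrt_le_nat_sqrt_succ
    have e2 : 2 * x ≤ K := Nat.le_ceil _
    have e0 : (f : ℝ) ≤ n₀ := by exact_mod_cast hfn₀
    have e3 : (f : ℝ) ≤ K * s := by
      have hx0 : 0 ≤ x := by linarith
      calc (f : ℝ) ≤ n₀ := e0
        _ ≤ Real.sqrt N * x := hn₀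
        _ ≤ (s + 1) * x := by gcongr
        _ ≤ (2 * s) * x := by gcongr; linarith
        _ = (2 * x) * s := by ring
        _ ≤ K * s := by gcongr
    exact_mod_cast e3
  have hDat : Dat K D s N f (fun n => (a (n - 1)).natAbs) := by
    refine ⟨hKpos, hD2, hs, hDs, hf2, hfK, Nat.sqrt_le N, ?_, ?_, ?_, ?_, ?_⟩
    · have h1 : N ≤ s * s + s + s := Nat.sqrt_le_add N
      nlinarith
    · show (a (2 - 1)).natAbs + 6 = N
      rw [show 2 - 1 = 1 from rfl, ha1]
      omega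
    · show D * (a (f + 1 - 1)).natAbs + N ≤ D * N
      rw [Nat.add_sub_cancel]
      have h1 : (N : ℝ) ≤ D * ((N : ℝ) - a f) := by
        have e1 : (N : ℝ) / y ≤ (N : ℝ) - a f := hfy.le
        have e2 : (N : ℝ) ≤ y * ((N : ℝ) - a f) := by
          rw [div_le_iff₀ hypos] at e1
          linarith
        have e3 : 0 ≤ (N : ℝ) - a f := le_trans (by positivity) e1
        exact e2.trans (by gcongr)
      have h2 : (((a f).natAbs : ℕ) : ℝ) = a f := by
        rw [Nat.cast_natAbs, abs_of_nonneg haf]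
      have h3 : (D : ℝ) * ((a f).natAbs : ℕ) + N ≤ D * N := by
        rw [h2]
        linarith
      exact_mod_cast h3
    · intro n hn2 hnf
      show (a (n + 1 - 1)).natAbs + Nat.gcd (a (n - 1)).natAbs (v n) = (a (n - 1)).natAbs
      rw [Nat.add_sub_cancel]
      have h1 := ha n hn2
      have h2 := hnn n (by omega) hnf
      have h3 := hnn (n - 1) (by omega) (by omega)
      have h4 : Int.gcd (a (n - 1)) ((n + b n : ℕ) : ℤ) = Nat.gcd (a (n - 1)).natAbs (v n) := rfl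
      rw [h4] at h1
      omega
    · intro n hn2 hnf
      show N ≤ 2 * (a (n - 1)).natAbs
      have := hhalf (n - 1) (by omega) (by omega)
      omega
  exact core hDat hL hR hRL hJL hlog hgrow hbig

/-- the final form, with the lower bound for the zero -/
theorem top2 :
    ∃ c : ℝ, 0 < c ∧ ∃ N₀ : ℕ, ∀ N : ℕ, N₀ ≤ N → ∀ a : ℕ → ℤ, a 1 = (N : ℤ) - 6 →
      (∀ n : ℕ, 2 ≤ n → a n = a (n - 1) - ((Int.gcd (a (n - 1)) ((n + b n : ℕ) : ℤ) : ℕ) : ℤ)) →
      (∀ x y : ℝ, 1 ≤ x → 2 ≤ y → x ^ 2 * y ≤ Real.exp (c * Real.log (Real.log N) ^ 2) →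
        ∀ n : ℕ, 1 ≤ n → (n : ℝ) ≤ √(N : ℝ) * x → (N : ℝ) - a n ≤ N / y) ∧
      ∀ f : ℕ, IsLeast {n : ℕ | 1 ≤ n ∧ a n = 0} f →
        √(N : ℝ) * Real.exp (c * Real.log (Real.log N) ^ 2) < f := by
  obtain ⟨c, hc, N₀, h⟩ := top
  have htend : Tendsto (fun N : ℕ => c * Real.log (Real.log N)) atTop atTop :=
    (Real.tendsto_log_atTop.comp
      (Real.tendsto_log_atTop.comp tendsto_natCast_atTop_atTop)).const_mul_atTop hc
  obtain ⟨N₁, hN₁⟩ := eventually_atTop.mp (htend.eventually_ge_atTop 1)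
  refine ⟨c / 4, by positivity, max (max N₀ N₁) 3, ?_⟩
  intro N hN a ha1 ha
  have hNa : N₀ ≤ N := le_trans (le_trans (le_max_left _ _) (le_max_left _ _)) hN
  have hNb : N₁ ≤ N := le_trans (le_trans (le_max_right _ _) (le_max_left _ _)) hN
  have hNc : 3 ≤ N := le_trans (le_max_right _ _) hN
  have hNR : (0 : ℝ) < N := by exact_mod_cast (show 0 < N by omega)
  obtain ⟨hmain, hu⟩ := h N hNa a ha1 ha
  have h1 := hN₁ N hNb
  obtain ⟨u, hud⟩ : ∃ u, u = Real.log (Real.log N) := ⟨_, rfl⟩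
  rw [← hud] at hmain hu h1 ⊢
  have hmono : Real.exp (c / 4 * u ^ 2) ≤ Real.exp (c * u ^ 2) := by
    apply Real.exp_le_exp.2
    have : 0 ≤ c * u ^ 2 := by positivity
    nlinarith
  constructor
  · intro x y hx hy hxy n hn1 hn
    exact hmain x y hx hy (hxy.trans hmono) n hn1 hn
  · intro f hf
    by_contra hcon
    push Not at hcon
    obtain ⟨⟨hf1, haf⟩, -⟩ := hf
    have hx1 : 1 ≤ Real.exp (c / 4 * u ^ 2) := Real.one_le_exp (by positivity)
    have h2 := hmain (Real.exp (c / 4 * u ^ 2)) 2 hx1 le_rfl (by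
      have e1 : Real.exp (c / 4 * u ^ 2) ^ 2 = Real.exp (c / 2 * u ^ 2) := by
        rw [← Real.exp_nat_mul]
        congr 1
        push_cast
        ring
      have e2 : (2 : ℝ) ≤ Real.exp (c / 2 * u ^ 2) := by
        have h3 := Real.add_one_le_exp (c / 2 * u ^ 2)
        nlinarith
      calc Real.exp (c / 4 * u ^ 2) ^ 2 * 2 ≤ Real.exp (c / 2 * u ^ 2) * Real.exp (c / 2 * u ^ 2) := by
            rw [e1]
            gcongr
        _ = Real.exp (c * u ^ 2) := by
            rw [← Real.exp_add]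
            congr 1
            ring) f hf1 hcon
    rw [haf] at h2
    push_cast at h2
    linarith

end Pool.Agent.K9h6.GR
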